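import Pool.Agent.P.MP_08fd93_co.OV.PkUnh
import Pool.Agent.P.MP_08fd93_co.OV.PkQ4
import Pool.Agent.P.MP_08fd93_co.OV.PkStar1
import Pool.Agent.P.MP_08fd93_co.OV.PkStar2
import Pool.Agent.P.MP_08fd93_co.OV.PkPCol

/-! Sharp forms of the four-cycle lemma and of the lemma on a hidden middle vertex. -/

set_option autoImplicit false

namespace Pool.Agent.P.MP_08fd93_co.FD

open OV

variable {W : Type} {H : SimpleGraph W}

open PkQ4P in
/-- The four-cycle lemma with the exact list of the vertices that are charged. -/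
theorem q4s (hP : Pl H Set.univ) (hT : TA H) {d : DD W} (hd : Disc H d) (hX : d.X = {d.a, d.b})
    (hY : d.Y = {d.a', d.b'}) (hab : d.a ≠ d.b) (hab' : d.a' ≠ d.b') (hn : ¬ H.Adj d.a d.b')
    (c : W → Col) (k1 : (c d.b).1 = (c d.a).1) (k2 : (c d.b').1 = (c d.a).1)
    (k3 : c d.b ≠ c d.b') :
    ∃ c' : W → Col, (∀ v, v ∉ d.I → v ≠ d.a' → c' v = c v) ∧ (c' d.a').1 = (c d.a).1 ∧
    (∀ v ∈ d.I, One H c' v) ∧ OneIn H c' (d.I ∪ {d.a, d.b, d.b'}) d.a' ∧
    (∀ v ∈ d.I ∪ {d.a'}, H.Adj d.a v → c' v ≠ c d.a) ∧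
    (∀ v ∈ d.I ∪ {d.a'}, H.Adj d.b v → c' v = c d.b → c d.a ≠ c d.b) ∧
    OneIn H c' (d.I ∪ {d.a'}) d.b ∧ OneIn H c' (d.I ∪ {d.a'}) d.b' ∧
    (∀ v ∈ d.I ∪ {d.a'}, H.Adj d.b' v → c' v = c d.b' → c d.a = c d.b) := by
  classical
  have ha := hd.px.ha
  have hb := hd.px.hb
  have ha' := hd.py.ha
  have hb' := hd.py.hb
  have n1 : d.a ≠ d.a' := hd.ra.ne
  have n2 : d.a ≠ d.b' := fun h => hd.xy ha (h ▸ hb')
  have n3 : d.b ≠ d.a' := fun h => hd.xy hb (h ▸ ha')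
  have n4 : d.b ≠ d.b' := hd.rb.ne
  have ia : d.a ∉ d.I := fun h => (DD.mem_I.1 h).2.1 ha
  have ib : d.b ∉ d.I := fun h => (DD.mem_I.1 h).2.1 hb
  have ia' : d.a' ∉ d.I := fun h => (DD.mem_I.1 h).2.2 ha'
  have ib' : d.b' ∉ d.I := fun h => (DD.mem_I.1 h).2.2 hb'
  by_cases h0 : c d.a = c d.b
  · obtain ⟨c', hc⟩ := mono2 hT hd hX hY (Function.update c d.a' (c d.b'))
      (by simp [n1, n3, h0]) (by simp [hab'.symm]) (by simpa [n1, h0] using k3)
    have off : ∀ v, v ∉ d.I → v ≠ d.a' → c' v = c v := fun v h1 h2 => by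
      rw [hc.off v h1, Function.update_of_ne h2]
    have ya : c' d.a' = c d.b' := by rw [hc.off _ ia', Function.update_self]
    have ca := off _ ia n1
    have cb := off _ ib n3
    have cb' := off _ ib' hab'.symm
    have no : ∀ x, x ∉ d.I → ∀ v ∈ d.I, H.Adj x v → c' v ≠ c' x :=
      fun x hx v hv e h => hc.al x hx v hv e h
    refine ⟨c', off, by rw [ya, k2], hc.one, ?_, ?_, ?_, ?_, ?_, fun _ _ _ _ => h0⟩
    · have : ∀ y ∈ d.I ∪ {d.a, d.b, d.b'}, H.Adj d.a' y → c' y = c' d.a' → y = d.b' := by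
        rintro y (hy | rfl | rfl | rfl) e h
        · exact (no _ ia' y hy e h).elim
        · exact (k3 (by rw [← h0, ← ca, h, ya])).elim
        · exact (k3 (by rw [← cb, h, ya])).elim
        · rfl
      exact fun y hy z hz ey ez cy cz => (this y hy ey cy).trans (this z hz ez cz).symm
    · rintro v (hv | rfl) e
      · exact ca ▸ no _ ia v hv e
      · rw [ya, h0]; exact k3.symm
    · rintro v (hv | rfl) e h
      · exact (no _ ib v hv e (h.trans cb.symm)).elim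
      · exact (k3 (by rw [← h, ya])).elim
    · have : ∀ y ∈ d.I ∪ {d.a'}, H.Adj d.b y → c' y = c' d.b → y = d.a' := by
        rintro y (hy | rfl) e h
        exacts [(no _ ib y hy e h).elim, rfl]
      exact fun y hy z hz ey ez cy cz => (this y hy ey cy).trans (this z hz ez cz).symm
    · have : ∀ y ∈ d.I ∪ {d.a'}, H.Adj d.b' y → c' y = c' d.b' → y = d.a' := by
        rintro y (hy | rfl) e h
        exacts [(no _ ib' y hy e h).elim, rfl]
      exact fun y hy z hz ey ez cy cz => (this y hy ey cy).trans (this z hz ez cz).symm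
  · have h1 : c d.a = c d.b' := by
      have : ∀ p q r : Col, q.1 = p.1 → r.1 = p.1 → q ≠ r → ¬ p = q → p = r := by decide
      exact this _ _ _ k1 k2 k3 h0
    obtain ⟨d2, Ia, hS, e1, e2, e3⟩ := star hP hd hX hY hab hab' hn
    obtain ⟨π, p1, -, p3⟩ := repair (c d.a) (c d.a) (c d.b) h0 h0
    obtain ⟨c0, hc0, hx⟩ := pk_Star2 pk_PCol pk_Star1 W H hP hT d2 d.a d.b' Ia hS
      (fun x => π (Function.update c d.a' (c d.b) x)) (by simp [n1, hab'.symm, h1])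
      (by simp [e1, e2, n3]) (by simp [e1, n1, n3, p1, p3])
    rw [e1, e2, e3] at hc0 hx
    have hc := hc0.perm π
    set c' : W → Col := fun x => π.symm (c0 x) with hc'
    have off : ∀ v, v ∉ d.I → v ≠ d.a' → c' v = c v := fun v h1 h2 => by
      rw [hc.off v h1, Function.update_of_ne h2]
    have ya : c' d.a' = c d.b := by rw [hc.off _ ia', Function.update_self]
    have ca := off _ ia n1
    have cb := off _ ib n3
    have cb' := off _ ib' hab'.symm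
    have no : ∀ x, x ∉ d.I → x ≠ d.b → x ≠ d.a' → ∀ v ∈ d.I, H.Adj x v → c' v ≠ c' x :=
      fun x hx x1 x2 v hv e h => (hc.al x hx v hv e h).elim x1 x2
    have ex : H.Adj d.b d.a' → ∀ y ∈ d.I, H.Adj d.b y ∨ H.Adj d.a' y → c' y ≠ c d.b := by
      intro e y hy ey h
      refine hx e (by simp [n3]) y hy ey ?_
      simp only [Function.update_of_ne n3, ← h, hc', Equiv.apply_symm_apply]
    refine ⟨c', off, by rw [ya, k1], hc.one, ?_, ?_, fun _ _ _ _ => h0, ?_, ?_, ?_⟩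
    · have : ∀ y ∈ d.I ∪ {d.a, d.b, d.b'}, c' y = c' d.a' → y ∈ d.I ∨ y = d.b := by
        rintro y (hy | rfl | rfl | rfl) h
        · exact Or.inl hy
        · exact (h0 (by rw [← ca, h, ya])).elim
        · exact Or.inr rfl
        · exact (k3 (by rw [← cb', h, ya])).elim
      intro y hy z hz ey ez cy cz
      rcases this y hy cy with h2 | h2 <;> rcases this z hz cz with h3 | h3
      · exact hc.un _ ia' y h2 z h3 ey ez cy cz
      · exact (ex (h3 ▸ ez.symm) y h2 (Or.inr ey) (cy.trans ya)).elim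
      · exact (ex (h2 ▸ ey.symm) z h3 (Or.inr ez) (cz.trans ya)).elim
      · exact h2.trans h3.symm
    · rintro v (hv | rfl) e
      · exact ca ▸ no _ ia hab n1 v hv e
      · rw [ya]; exact fun h => h0 h.symm
    · rintro y (h2 | h2) z (h3 | h3) ey ez cy cz
      · exact hc.un _ ib y h2 z h3 ey ez cy cz
      · exact (ex (h3 ▸ ez) y h2 (Or.inl ey) (cy.trans cb)).elim
      · exact (ex (h2 ▸ ey) z h3 (Or.inl ez) (cz.trans cb)).elim
      · exact h2.trans h3.symm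
    · have : ∀ y ∈ d.I ∪ {d.a'}, H.Adj d.b' y → c' y = c' d.b' → y = d.a' := by
        rintro y (hy | rfl) e h
        exacts [(no _ ib' n4.symm hab'.symm y hy e h).elim, rfl]
      exact fun y hy z hz ey ez cy cz => (this y hy ey cy).trans (this z hz ez cz).symm
    · rintro v (hv | rfl) e h
      · exact (no _ ib' n4.symm hab'.symm v hv e (h.trans cb'.symm)).elim
      · exact (k3 (by rw [← h, ya])).elim

open PkUnhP in
/-- A hidden middle vertex of the second path `s x s'`: the exact list of charged vertices. -/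
theorem unh_hid (hP : Pl H Set.univ) (hT : TA H) {d : DD W} {S : Set (Sym2 W)} {o : OD W} {x : W}
    (hd : Disc H d) (ho : Out H d S o) (hY : d.Y = {d.a', x, d.b'}) (e1 : H.Adj d.a' x)
    (e2 : H.Adj x d.b') (hne : d.a' ≠ d.b') (hna : ¬ H.Adj d.a' d.b') (hx : x ∈ o.Z)
    (c : W → Col) (ω : W → W) (cX : ∀ v ∈ o.X, (c v).1 = false) (cY : ∀ v ∈ d.Y, (c v).1 = true)
    (hpd : Paid (PE H (d.X ∩ o.X) \ S) c ω) (hcx : c x ≠ c d.b') :
    ∃ c', Rec H (MX d o) (Pay (PE H (d.X ∩ o.X) \ S) c ω ∪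
      {v | (v = x ∧ c d.a' ≠ c x) ∨ (v = d.b' ∧ c d.a' = c x)}) c c' := by
  classical
  have h := ho.shp
  have xY : x ∈ d.Y := by rw [hY]; simp
  have memY : ∀ v, v ∈ d.Y ↔ v = d.a' ∨ v = x ∨ v = d.b' := by
    intro v; rw [hY]; simp
  have aY : d.a' ∈ o.Y := h.py.ha
  have bY : d.b' ∈ o.Y := h.py.hb
  have memMX : ∀ v, v ∈ MX d o ↔ v ∈ d.I ∧ v ∉ o.X ∧ (v ∈ o.Z → o.ax v ∉ o.X) := by
    intro v
    simp only [MX, Set.mem_sdiff, Set.mem_union, Set.mem_ofPred_eq, not_or, not_and]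
  have memMid : ∀ v, v ∈ (d.upd o).I ↔ v ∉ o.Z ∧ v ∉ o.X ∧ v ∉ o.Y := fun v => DD.mem_I
  -- `x` is hidden under the apex `y`
  have xZ : x ∉ d.Z := hd.yz xY
  obtain ⟨yY, yn⟩ : o.ax x ∈ o.Y ∧ o.ax x ∉ d.Y := h.swap.hidden hd.swap xY hx
  obtain ⟨y, hy⟩ : ∃ y, o.ax x = y := ⟨_, rfl⟩
  rw [hy] at yY yn
  have yI : y ∈ d.I := DD.mem_I.2 ⟨fun hz => h.yz yY (h.zz hz), h.yX yY, yn⟩
  have endy : ∀ t ∈ d.Y, t ∈ o.Y → H.Adj x t → H.Adj t y := by
    intro t ht ht' e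
    rcases h.pk x hx xZ t e with h1 | h1 | h1 | h1
    · exact absurd h1 (hd.yz ht)
    · exact absurd h1.1 (h.yz ht')
    · exact absurd (hy ▸ h1 ▸ ht) yn
    · exact hy ▸ h1.1
  have ay : H.Adj d.a' y := endy _ hd.py.ha aY e1.symm
  have by' : H.Adj d.b' y := endy _ hd.py.hb bY e2
  have oY : o.Y = {d.a', y, d.b'} := triple h.py yY ay by'.symm
  have memoY : ∀ v, v ∈ o.Y ↔ v = d.a' ∨ v = y ∨ v = d.b' := by
    intro v; rw [oY]; simp
  have axy : ∀ v ∈ o.Z, v ∉ d.Z → o.ax v ∈ o.X ∨ o.ax v = y := by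
    intro v hv hv'
    rcases h.ap v hv hv' with h1 | h1
    · exact Or.inl h1.1
    · rcases (memoY _).1 h1.1 with h2 | h2 | h2
      · exact absurd (h2 ▸ hd.py.ha) h1.2
      · exact Or.inr h2
      · exact absurd (h2 ▸ hd.py.hb) h1.2
  obtain ⟨D, hD⟩ : ∃ D : Set W, ∀ v, v ∈ D ↔ v ∈ o.Z ∧ v ∉ d.Z ∧ o.ax v = y ∧ v ≠ x :=
    ⟨{v | v ∈ o.Z ∧ v ∉ d.Z ∧ o.ax v = y ∧ v ≠ x}, fun _ => Iff.rfl⟩
  have DI : D ⊆ d.I := by
    intro v hv
    obtain ⟨h1, h2, h3, h4⟩ := (hD v).1 hv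
    refine DD.mem_I.2 ⟨h2, fun hX => ?_, fun hY' => ?_⟩
    · exact h.xy (h3 ▸ (h.hidden hd hX h1).1) yY
    · rcases (memY v).1 hY' with rfl | rfl | rfl
      exacts [h.yz aY h1, h4 rfl, h.yz bY h1]
  have DZ : D ⊆ o.Z := fun v hv => ((hD v).1 hv).1
  have xD : x ∉ D := fun hv => ((hD x).1 hv).2.2.2 rfl
  -- neighbours of `D`
  have nD : ∀ v ∈ D, ∀ z, H.Adj v z → z ∈ D ∨ z = d.a' ∨ z = x ∨ z = y ∨ z = d.b' := by
    intro v hv z e
    obtain ⟨h1, h2, h3, _⟩ := (hD v).1 hv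
    have hz : z ∉ d.Z := hd.iz (DI hv) e
    rcases h.pk v h1 h2 z e with h5 | h5 | h5 | h5
    · exact absurd h5 hz
    · by_cases hzx : z = x
      · exact Or.inr (Or.inr (Or.inl hzx))
      · exact Or.inl ((hD z).2 ⟨h5.1, hz, h5.2.trans h3, hzx⟩)
    · exact Or.inr (Or.inr (Or.inr (Or.inl (h5.trans h3))))
    · rcases h5.2 with h6 | h6
      · exact absurd yY (h.xy (h3 ▸ h6.2))
      · rcases (memoY z).1 h6.1 with h7 | h7 | h7
        exacts [Or.inr (Or.inl h7), Or.inr (Or.inr (Or.inr (Or.inl h7))),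
          Or.inr (Or.inr (Or.inr (Or.inr h7)))]
  -- neighbours of `y`
  have ny : ∀ z, H.Adj y z → z ∈ o.X ∨ z ∈ (d.upd o).I ∨ z ∈ D ∨ z = d.a' ∨ z = x ∨ z = d.b' := by
    intro z e
    rcases (d.upd o).cases z with h1 | h1 | h1 | h1
    · have hz : z ∉ d.Z := hd.iz yI e
      have hax : o.ax z = y := by
        rcases h.pk z h1 hz y e.symm with h5 | h5 | h5 | h5
        · exact absurd h5 (DD.mem_I.1 yI).1
        · exact absurd h5.1 (h.yz yY)
        · exact h5.symm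
        · rcases h5.2 with h6 | h6
          · exact absurd yY (h.xy h6.1)
          · exact (axy z h1 hz).resolve_left fun hh => h.xy hh h6.2
      by_cases hzx : z = x
      · exact Or.inr (Or.inr (Or.inr (Or.inr (Or.inl hzx))))
      · exact Or.inr (Or.inr (Or.inl ((hD z).2 ⟨h1, hz, hax, hzx⟩)))
    · exact Or.inl h1
    · rcases (memoY z).1 h1 with h7 | h7 | h7
      exacts [Or.inr (Or.inr (Or.inr (Or.inl h7))), absurd h7.symm e.ne,
        Or.inr (Or.inr (Or.inr (Or.inr (Or.inr h7))))]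
    · exact Or.inr (Or.inl h1)
  have dis : Disjoint D {d.a', x, y, d.b'} := by
    refine Set.disjoint_left.2 fun v hv hv' => ?_
    rcases hv' with rfl | rfl | rfl | rfl
    exacts [h.yz aY (DZ hv), xD hv, h.yz yY (DZ hv), h.yz bY (DZ hv)]
  have xy : x ≠ y := fun hh => h.yz yY (hh ▸ hx)
  have mem4 : ∀ v, v ∈ (d4 d.a' x y d.b' D).Z ↔
      v ∉ D ∧ v ≠ d.a' ∧ v ≠ x ∧ v ≠ y ∧ v ≠ d.b' := by
    intro v
    simp only [d4, Set.mem_compl_iff, Set.mem_union, Set.mem_insert_iff, Set.mem_singleton_iff,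
      not_or]
  have inZ : ∀ v, v ∉ o.Y → (v ∈ o.Z → v ∈ d.Z ∨ o.ax v ≠ y) → v ∈ (d4 d.a' x y d.b' D).Z := by
    intro v h1 h2
    refine (mem4 v).2 ⟨fun hv => ?_, fun hv => h1 (hv ▸ aY), fun hv => ?_, fun hv => h1 (hv ▸ yY),
      fun hv => h1 (hv ▸ bY)⟩
    · obtain ⟨h3, h4, h5, _⟩ := (hD v).1 hv
      exact (h2 h3).elim h4 fun hh => hh h5
    · subst hv
      exact (h2 hx).elim xZ fun hh => hh hy
  have zZ : d.Z ⊆ (d4 d.a' x y d.b' D).Z := fun v hv =>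
    inZ v (fun hh => h.yz hh (h.zz hv)) fun _ => Or.inl hv
  have xZ4 : o.X ⊆ (d4 d.a' x y d.b' D).Z := fun v hv =>
    inZ v (h.xy hv) fun hh => absurd hh (h.xz hv)
  have mZ4 : (d.upd o).I ⊆ (d4 d.a' x y d.b' D).Z := fun v hv =>
    inZ v ((memMid v).1 hv).2.2 fun hh => absurd hh ((memMid v).1 hv).1
  have I4 : (d4 d.a' x y d.b' D).I = D := d4_I dis
  have disc4 : Disc H (d4 d.a' x y d.b' D) := by
    refine ⟨?_, ?_, ?_, ay, e2, ?_, ?_, ?_, ?_, ?_, ?_⟩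
    · refine Pth.pair e1 ?_
      simp [d4, e1.ne, hne]
    · refine Pth.pair by'.symm ?_
      simp [d4, xy.symm, by'.ne']
    · refine Set.disjoint_left.2 ?_
      rintro v (rfl | rfl) (hv | hv)
      exacts [ay.ne hv, hne hv, xy hv, e2.ne hv]
    · have c1 : IsConn H (d.Z ∪ o.X) := by
        obtain ⟨z, hz, e⟩ := hd.tz (Or.inl hd.px.ha)
        exact hd.zc.union h.px.conn ⟨z, hz, d.a, h.px.ha, e.symm⟩
      refine isConn_base c1 (Set.union_subset zZ xZ4) fun v hv => ?_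
      obtain ⟨n1, n2, n3, n4, n5⟩ := (mem4 v).1 hv
      rcases (d.upd o).cases v with h1 | h1 | h1 | h1
      · by_cases hz : v ∈ d.Z
        · exact ⟨v, Or.inl hz, Conn.rfl'⟩
        have hax : o.ax v ≠ y := fun hh => n1 ((hD v).2 ⟨h1, hz, hh, n3⟩)
        have sub : Pk d o (o.ax v) ⊆ (d4 d.a' x y d.b' D).Z := fun u hu =>
          inZ u (fun hh => h.yz hh hu.1) fun _ => Or.inr (hu.2.2 ▸ hax)
        obtain ⟨u, c2, hu, hu'⟩ := h.pocket hd h1 hz
        obtain ⟨z, hz', e⟩ := hd.tz hu'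
        exact ⟨z, Or.inl hz', (c2.up sub).snoc (sub hu) (zZ hz') e⟩
      · exact ⟨v, Or.inr h1, Conn.rfl'⟩
      · rcases (memoY v).1 h1 with h7 | h7 | h7
        exacts [absurd h7 n2, absurd h7 n4, absurd h7 n5]
      · obtain ⟨u, c2, z, hz, e⟩ := h.disc.toX hP h1
        exact ⟨z, Or.inr hz, (c2.up mZ4).snoc (mZ4 (c2.mem h1)) (xZ4 hz) e⟩
    · refine Set.disjoint_left.2 fun v hv hv' => ?_
      obtain ⟨n1, n2, n3, n4, n5⟩ := (mem4 v).1 hv
      rcases hv' with (h7 | h7) | h7 | h7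
      exacts [n2 h7, n3 h7, n4 h7, n5 h7]
    · rintro v ⟨z, hz, e⟩
      by_contra hc
      have hv : v ∈ D := I4 ▸ hc
      obtain ⟨n1, n2, n3, n4, n5⟩ := (mem4 z).1 hz
      rcases nD v hv z e with h7 | h7 | h7 | h7 | h7
      exacts [n1 h7, n2 h7, n3 h7, n4 h7, n5 h7]
    · have old : ∀ t ∈ d.Y, t ∈ Nb H (d4 d.a' x y d.b' D).Z := fun t ht => by
        obtain ⟨z, hz, e⟩ := hd.tz (Or.inr ht)
        exact ⟨z, zZ hz, e⟩
      rintro v ((rfl | rfl) | rfl | rfl)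
      · exact old _ hd.py.ha
      · exact old _ xY
      · obtain ⟨z, e, hz⟩ := h.disc.swap.side hP (x := v) yY ay.ne' by'.ne'
        rw [DD.swap_I] at hz
        exact ⟨z, hz.elim (fun hh => mZ4 hh) fun hh => xZ4 hh, e⟩
      · exact old _ hd.py.hb
    · rw [I4]; exact hd.fin.subset DI
    · rw [I4]; exact hd.nj.mono DI
  have ca := cY _ hd.py.ha
  have cb := cY _ hd.py.hb
  have cx := cY _ xY
  obtain ⟨c1, q1, q2, q3, q4, q5, q6, q7, q8, q9⟩ := q4s hP hT disc4 rfl rfl e1.ne by'.ne' hna c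
    (cx.trans ca.symm) (cb.trans ca.symm) hcx
  rw [I4] at q1 q3 q4 q5 q6 q7 q8 q9
  simp only [d4] at q1 q2 q4 q5 q6 q7 q8 q9
  have c1X : ∀ v ∈ o.X, c1 v = c v := fun v hv =>
    q1 v (fun hh => h.xz hv (DZ hh)) fun hh => h.xy hv (hh ▸ yY)
  have c1a : c1 d.a' = c d.a' := q1 _ (fun hh => h.yz aY (DZ hh)) ay.ne
  have c1b : c1 d.b' = c d.b' := q1 _ (fun hh => h.yz bY (DZ hh)) by'.ne
  have c1x : c1 x = c x := q1 _ xD xy
  have eL : LE H d S o ⊆ PE H (d.X ∩ o.X) \ S := by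
    rintro e ⟨h1 | h1, h2⟩
    · exact ⟨h1, h2⟩
    · exfalso
      obtain ⟨u, hu, v, hv, e', _⟩ := h1
      have k : ∀ t ∈ d.Y ∩ o.Y, t = d.a' ∨ t = d.b' := fun t ht => by
        rcases (memY t).1 ht.1 with h7 | h7 | h7
        exacts [Or.inl h7, absurd hx (h.yz (h7 ▸ ht.2)), Or.inr h7]
      rcases k u hu with rfl | rfl <;> rcases k v hv with rfl | rfl
      exacts [e'.ne rfl, hna e', hna e'.symm, e'.ne rfl]
  obtain ⟨c2, r⟩ := ho.ext c1 ω (fun v hv => by rw [c1X v hv]; exact cX v hv)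
    (fun v hv => by
      rcases (memoY v).1 hv with rfl | rfl | rfl
      · rw [c1a]; exact ca
      · rw [q2]; exact ca
      · rw [c1b]; exact cb)
    (fun u v huv => by
      obtain ⟨hu, hv, _⟩ := mem_PE.1 (eL huv).1
      rw [c1X u hu.2, c1X v hv.2]
      exact hpd u v (eL huv))
  have payX : ∀ v ∈ Pay (LE H d S o) c1 ω, v ∈ o.X ∧ ω v ∈ o.X := fun v hv =>
    ⟨(mem_PE.1 (eL hv.1).1).1.2, (mem_PE.1 (eL hv.1).1).2.1.2⟩
  have eM : ∀ v, v ∈ MX d o ↔ v ∈ (d.upd o).I ∨ v ∈ D ∨ v = y := by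
    intro v
    rw [memMX]
    constructor
    · rintro ⟨h1, h2, h3⟩
      have h4 := DD.mem_I.1 h1
      rcases (d.upd o).cases v with h5 | h5 | h5 | h5
      · exact Or.inr (Or.inl ((hD v).2 ⟨h5, h4.1, (axy v h5 h4.1).resolve_left (h3 h5),
          fun hh => h4.2.2 (hh ▸ xY)⟩))
      · exact absurd h5 h2
      · rcases (memoY v).1 h5 with h7 | h7 | h7
        exacts [absurd (h7 ▸ hd.py.ha) h4.2.2, Or.inr (Or.inr h7), absurd (h7 ▸ hd.py.hb) h4.2.2]
      · exact Or.inl h5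
    · rintro (h1 | h1 | rfl)
      · exact ⟨h.I_sub h1, ((memMid v).1 h1).2.1, fun hz => absurd hz ((memMid v).1 h1).1⟩
      · exact ⟨DI h1, fun hh => h.xz hh (DZ h1), fun _ hh =>
          h.xy hh (((hD v).1 h1).2.2.1 ▸ yY)⟩
      · exact ⟨yI, fun hh => h.xy hh yY, fun hz => absurd hz (h.yz yY)⟩
  have offZ : ∀ v ∈ o.Z, c2 v = c1 v := fun v hv => r.off v fun hh => ((memMid v).1 hh).1 hv
  have offY : ∀ v ∈ o.Y, c2 v = c1 v := fun v hv => r.off v fun hh => ((memMid v).1 hh).2.2 hv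
  have offX : ∀ v ∈ o.X, c2 v = c1 v := fun v hv => r.off v fun hh => ((memMid v).1 hh).2.1 hv
  have offDy : ∀ v, v ∈ D ∨ v = y → c2 v = c1 v := by
    rintro v (hv | rfl)
    exacts [offZ v (DZ hv), offY v yY]
  -- a neighbour of `y` with the colour of `y`
  have ny2 : ∀ z, H.Adj y z → c2 z = c2 y → z ∈ D ∨ z = d.a' ∨ z = x ∨ z = d.b' := by
    intro z e hc
    rcases ny z e with h1 | h1 | h1
    · have h2 := cX z h1
      rw [← c1X z h1, ← offX z h1, hc, offY y yY, q2, ca] at h2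
      exact absurd h2 (by decide)
    · exact absurd (payX y (r.al y (fun hh => ((memMid y).1 hh).2.2 yY) z h1 e hc)).1
        fun hh => h.xy hh yY
    · exact h1
  have off4 : ∀ z, z ∈ D ∨ z = d.a' ∨ z = x ∨ z = d.b' → c2 z = c1 z := by
    rintro z (hz | rfl | rfl | rfl)
    exacts [offZ z (DZ hz), offY _ aY, offZ _ hx, offY _ bY]
  -- an outer vertex with a neighbour of its colour in `D ∪ {y}`
  have out : ∀ v, v ∉ MX d o → ∀ u, u ∈ D ∨ u = y → H.Adj v u → c2 u = c2 v →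
      (v = x ∧ c d.a' ≠ c x ∧ c1 u = c1 v) ∨ (v = d.b' ∧ c d.a' = c x ∧ c1 u = c1 v) := by
    intro v hv u hu e hc
    have hv' : v = d.a' ∨ v = x ∨ v = d.b' := by
      rcases hu with hu | rfl
      · rcases nD u hu v e.symm with h1 | h1 | h1 | h1 | h1
        exacts [absurd ((eM v).2 (Or.inr (Or.inl h1))) hv, Or.inl h1, Or.inr (Or.inl h1),
          absurd ((eM v).2 (Or.inr (Or.inr h1))) hv, Or.inr (Or.inr h1)]
      · exact (ny2 v e.symm hc.symm).resolve_left fun h1 => hv ((eM v).2 (Or.inr (Or.inl h1)))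
    rw [offDy u hu, off4 v (Or.inr hv')] at hc
    rcases hv' with rfl | rfl | rfl
    · exact absurd (hc.trans c1a) (q5 u hu e)
    · exact Or.inl ⟨rfl, q6 u hu e (hc.trans c1x), hc⟩
    · exact Or.inr ⟨rfl, q9 u hu e (hc.trans c1b), hc⟩
  refine ⟨c2, fun v hv => ?_, fun v hv => ?_, fun v hv u hu e hc => ?_,
    fun v hv u hu u' hu' e e' hc hc' => ?_⟩
  · rw [r.off v fun hh => hv ((eM v).2 (Or.inl hh))]
    exact q1 v (fun hh => hv ((eM v).2 (Or.inr (Or.inl hh))))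
      fun hh => hv ((eM v).2 (Or.inr (Or.inr hh)))
  · rcases (eM v).1 hv with h1 | h1 | rfl
    · exact r.one v h1
    · have k : ∀ z, H.Adj v z → c2 z = c1 z := fun z e => by
        rcases nD v h1 z e with h2 | h2 | h2 | h2 | h2
        exacts [off4 z (Or.inl h2), off4 z (Or.inr (Or.inl h2)), off4 z (Or.inr (Or.inr (Or.inl h2))),
          offDy z (Or.inr h2), off4 z (Or.inr (Or.inr (Or.inr h2)))]
      intro z z' e e' hc hc'
      rw [offDy v (Or.inl h1)] at hc hc'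
      rw [k z e] at hc
      rw [k z' e'] at hc'
      exact q3 v h1 z z' e e' hc hc'
    · intro z z' e e' hc hc'
      have h2 := ny2 z e hc
      have h3 := ny2 z' e' hc'
      rw [offY v yY] at hc hc'
      rw [off4 z h2] at hc
      rw [off4 z' h3] at hc'
      exact q4 z h2 z' h3 e e' hc hc'
  · rcases (eM u).1 hu with h1 | h1
    · have h2 := r.al v (fun hh => hv ((eM v).2 (Or.inl hh))) u h1 e hc
      refine Or.inl ⟨eL h2.1, ?_⟩
      rw [← c1X v (payX v h2).1, ← c1X _ (payX v h2).2]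
      exact h2.2
    · rcases out v hv u h1 e hc with ⟨rfl, h2, _⟩ | ⟨rfl, h2, _⟩
      exacts [Or.inr (Or.inl ⟨rfl, h2⟩), Or.inr (Or.inr ⟨rfl, h2⟩)]
  · have nm : v ∉ (d.upd o).I := fun hh => hv ((eM v).2 (Or.inl hh))
    have mix : ∀ t ∈ (d.upd o).I, ∀ t', t' ∈ D ∨ t' = y → H.Adj v t → H.Adj v t' → c2 t = c2 v →
        c2 t' = c2 v → False := by
      intro t ht t' ht' f f' g g'
      have h2 := (payX v (r.al v nm t ht f g)).1
      rcases out v hv t' ht' f' g' with ⟨rfl, _⟩ | ⟨rfl, _⟩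
      exacts [h.xz h2 hx, h.xy h2 bY]
    rcases (eM u).1 hu with h1 | h1 <;> rcases (eM u').1 hu' with h2 | h2
    · exact r.un v nm u h1 u' h2 e e' hc hc'
    · exact (mix u h1 u' h2 e e' hc hc').elim
    · exact (mix u' h2 u h1 e' e hc' hc).elim
    · rcases out v hv u h1 e hc with ⟨rfl, _, h3⟩ | ⟨rfl, _, h3⟩
      · rcases out v hv u' h2 e' hc' with ⟨_, _, h4⟩ | ⟨_, _, h4⟩
        all_goals exact q7 u h1 u' h2 e e' h3 h4
      · rcases out _ hv u' h2 e' hc' with ⟨_, _, h4⟩ | ⟨_, _, h4⟩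
        all_goals exact q8 u h1 u' h2 e e' h3 h4

end Pool.Agent.P.MP_08fd93_co.FD
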