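import Pool.Agent.P.MP_08fd93_co.FD.H7
import Pool.Agent.P.MP_08fd93_co.FD.Q

/-! A second path with two edges absorbs one strict edge of the first path. -/

set_option autoImplicit false

namespace Pool.Agent.P.MP_08fd93_co.FD

open OV

variable {W : Type} {H : SimpleGraph W} {d : DD W} {o : OD W}

/-- If the second path is kept, the coloured part is the interior of the new disc. -/
theorem mx_eq {S : Set (Sym2 W)} (h : Shp H d S o) (oY : o.Y = d.Y) : MX d o = (d.upd o).I := by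
  ext v
  have memMX : v ∈ MX d o ↔ v ∈ d.I ∧ v ∉ o.X ∧ (v ∈ o.Z → o.ax v ∉ o.X) := by
    simp only [MX, Set.mem_sdiff, Set.mem_union, Set.mem_ofPred_eq, not_or, not_and]
  have memMid : v ∈ (d.upd o).I ↔ v ∉ o.Z ∧ v ∉ o.X ∧ v ∉ o.Y := DD.mem_I
  rw [memMX, memMid]
  constructor
  · rintro ⟨h1, h2, h3⟩
    have h4 := DD.mem_I.1 h1
    refine ⟨fun hz => ?_, h2, oY ▸ h4.2.2⟩
    rcases h.ap v hz h4.1 with h5 | h5
    exacts [h3 hz h5.1, h5.2 (oY ▸ h5.1)]
  · intro hv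
    exact ⟨h.I_sub (memMid.2 hv), hv.2.1, fun hz => absurd hz hv.1⟩

/-- The conclusion of the lemma; `t` is the end that may share the colour of `x`. -/
def DAc (H : SimpleGraph W) (d : DD W) (x : W) (e : Sym2 W) (o : OD W) (t : W) : Prop :=
  Shp H d {e} o ∧ ∀ (c : W → Col) (ω : W → W), (∀ v ∈ o.X, (c v).1 = false) →
    (∀ v ∈ d.Y, (c v).1 = true) → Paid (PE H (d.X ∩ o.X) \ {e}) c ω →
    (c d.a' = c d.b' → c x ≠ c d.a' →
      ∃ c', Rec H (MX d o) (Pay (PE H (d.X ∩ o.X) \ {e}) c ω ∪ {x}) c c') ∧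
    (c t = c x → c d.a' ≠ c d.b' →
      ∃ c', Rec H (MX d o) (Pay (PE H (d.X ∩ o.X) \ {e}) c ω ∪ {d.a', d.b'} \ {t}) c c')

/-- One edge `f` of the second path is strict and `x` pays the other edge `x t`. -/
theorem dac_vis {x t : W} {e f : Sym2 W} (D : Disc H d) (hY : d.Y = {d.a', x, d.b'})
    (xf : x ∈ f) (fY : f ∈ PE H d.Y) (hf : ∀ g ∈ PE H d.Y, g = f ∨ g = s(x, t))
    (h : Shp H d {e, f} o) (E : ExtIf H d {e, f} o fun c ω => c x = c t ∨ ω x = t) :
    DAc H d x e o t := by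
  classical
  have xY : x ∈ d.Y := PE.ends fY xf
  have oY : o.Y = d.Y := h.keepY D fun v hv => by
    rw [hY] at hv
    rcases hv with rfl | rfl | rfl
    exacts [h.yz h.py.ha, h.st f (Or.inr rfl) _ xf, h.yz h.py.hb]
  refine ⟨h.mono (by rintro _ rfl; exact Or.inl rfl), fun c ω cX cY hp => ?_⟩
  obtain ⟨ω', w1, w2, w3⟩ : ∃ ω' : W → W, ω' x = t ∧ (∀ v ∈ d.Y, v ≠ x → ω' v = v) ∧
      ∀ v, v ∉ d.Y → ω' v = ω v :=
    ⟨fun v => if v = x then t else if v ∈ d.Y then v else ω v, if_pos rfl,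
      fun v hv hn => (if_neg hn).trans (if_pos hv),
      fun v hv => (if_neg fun k : v = x => hv (k ▸ xY)).trans (if_neg hv)⟩
  have key : ∃ c', Rec H (MX d o) (Pay (PE H (d.X ∩ o.X) \ {e}) c ω ∪
      {v | v = x ∧ c t ≠ c x}) c c' := by
    obtain ⟨c', R⟩ := E c ω' cX (oY ▸ cY) (by
      rintro u v ⟨k | k, n⟩
      · have m := mem_PE.1 k
        rw [w3 u (D.xy m.1.1), w3 v (D.xy m.2.1.1)]
        exact hp u v ⟨k, fun q => n (Or.inl q)⟩
      · rcases hf _ (PE.mono Set.inter_subset_left k) with q | q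
        · exact absurd (Or.inr q) n
        · rcases Sym2.eq_iff.1 q with ⟨rfl, rfl⟩ | ⟨rfl, rfl⟩
          exacts [Or.inr (Or.inl w1), Or.inr (Or.inr w1)]) (Or.inr w1)
    rw [mx_eq h oY]
    refine ⟨c', R.mono fun v _ hv => ?_⟩
    obtain ⟨⟨k | k, n⟩, m⟩ := hv
    · have q := w3 v (D.xy (mem_PE.1 k).1.1)
      rw [q] at k n m
      exact Or.inl ⟨⟨k, fun r => n (Or.inl r)⟩, m⟩
    · by_cases q : v = x
      · rw [q, w1] at m
        exact Or.inr ⟨q, m⟩
      · rw [w2 v (mem_PE.1 k).1.1 q] at m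
        exact absurd rfl m
  obtain ⟨c', R⟩ := key
  exact ⟨fun _ _ => ⟨c', R.mono fun v _ hv => hv.imp_right And.left⟩,
    fun k _ => ⟨c', R.mono fun v _ hv => hv.imp_right fun q => absurd k q.2⟩⟩

/-- TOOL DA. The second path is `s x s'`; any edge `e` of the first path can be made strict. With
alternating colours only `x` is charged on the second path; if `x` has the colour of the end
`t`, only the other end is charged. -/
theorem da (hP : Pl H Set.univ) (T : TA H) (D : Disc H d) {x : W} (hY : d.Y = {d.a', x, d.b'})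
    (e1 : H.Adj d.a' x) (e2 : H.Adj x d.b') {e : Sym2 W} (he : e ∈ PE H d.X) :
    ∃ o t, (t = d.a' ∨ t = d.b') ∧ DAc H d x e o t := by
  have py := D.py
  have xY : x ∈ d.Y := by rw [hY]; simp
  have memY : ∀ v ∈ d.Y, v = d.a' ∨ v = x ∨ v = d.b' := fun v hv => by rw [hY] at hv; exact hv
  have l1 : d.ρ d.a' < d.ρ x := py.lo_lt xY e1.ne'
  have l2 : d.ρ x < d.ρ d.b' := py.lt_hi xY e2.ne
  have hne : d.a' ≠ d.b' := fun k => by rw [k] at l1; omega
  have hna : ¬ H.Adj d.a' d.b' := fun k => py.nb py.ha py.hb k xY ⟨l1, l2⟩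
  have f1 : s(d.a', x) ∈ PE H d.Y := mem_PE.2 ⟨py.ha, xY, e1⟩
  have f2 : s(x, d.b') ∈ PE H d.Y := mem_PE.2 ⟨xY, py.hb, e2⟩
  have hf : ∀ g ∈ PE H d.Y, g = s(d.a', x) ∨ g = s(x, d.b') := by
    rintro _ ⟨u, hu, v, hv, a, rfl⟩
    rcases memY u hu with rfl | rfl | rfl <;> rcases memY v hv with rfl | rfl | rfl
    exacts [absurd rfl a.ne, Or.inl rfl, absurd a hna, Or.inl Sym2.eq_swap, absurd rfl a.ne,
      Or.inr rfl, absurd a.symm hna, Or.inr Sym2.eq_swap, absurd rfl a.ne]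
  have visL : ∀ o, Shp H d {e, s(d.a', x)} o →
      (ExtIf H d {e, s(d.a', x)} o fun c ω => c x = c d.b' ∨ ω x = d.b') →
      ∃ o t, (t = d.a' ∨ t = d.b') ∧ DAc H d x e o t := fun o h E =>
    ⟨o, _, Or.inr rfl, dac_vis D hY (Sym2.mem_mk_right _ _) f1 hf h E⟩
  have visR : ∀ o, Shp H d {e, s(x, d.b')} o →
      (ExtIf H d {e, s(x, d.b')} o fun c ω => c x = c d.a' ∨ ω x = d.a') →
      ∃ o t, (t = d.a' ∨ t = d.b') ∧ DAc H d x e o t := fun o h E =>
    ⟨o, _, Or.inl rfl, dac_vis D hY (Sym2.mem_mk_left _ _) f2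
      (fun g hg => (hf g hg).symm.imp_right fun k => k.trans Sym2.eq_swap) h E⟩
  obtain ⟨p, hp, p', hp', pp, lt, rfl⟩ := FU.pe_ord D.px he
  obtain ⟨z, a1, a2, hz | hz⟩ := PkStp1P.apex0 hP D hp hp' lt pp
  swap
  · -- the apex lies on the second path: a rung separates `e` from an edge of the second path
    have right : ∀ y ∈ d.Y, d.ρ z ≤ d.ρ y → ∀ y' ∈ d.Y, d.ρ z ≤ d.ρ y' → s(y, y') ∈ PE H d.Y →
        ∃ o, Out H d {s(p, p'), s(y, y')} o := fun y hy l y' hy' l' k =>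
      T d _ D (FU.adm_pair (Or.inl he) (Or.inr k) (Or.inl ⟨p', hp', z, hz, a2.symm, fun w hw => by
        rcases Sym2.mem_iff.1 hw with rfl | rfl
        exacts [Or.inl ⟨hp, lt.le⟩, Or.inl ⟨hp', le_rfl⟩], fun w hw => by
        rcases Sym2.mem_iff.1 hw with rfl | rfl
        exacts [Or.inr ⟨hy, l⟩, Or.inr ⟨hy', l'⟩]⟩))
    rcases memY z hz with rfl | rfl | rfl
    · obtain ⟨o, O⟩ := right _ py.ha le_rfl x xY l1.le f1
      exact visL o O.shp (extIf_of O _)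
    · obtain ⟨o, O⟩ := right _ xY le_rfl _ py.hb l2.le f2
      exact visR o O.shp (extIf_of O _)
    · obtain ⟨o, O⟩ := T d _ D (FU.adm_pair (Or.inl he) (Or.inr f2)
        (Or.inr ⟨p, hp, _, hz, a1.symm, fun w hw => by
          rcases Sym2.mem_iff.1 hw with rfl | rfl
          exacts [Or.inr ⟨xY, l2.le⟩, Or.inr ⟨hz, le_rfl⟩], fun w hw => by
          rcases Sym2.mem_iff.1 hw with rfl | rfl
          exacts [Or.inl ⟨hp, le_rfl⟩, Or.inl ⟨hp', lt.le⟩]⟩))
      exact visR o O.shp (extIf_of O _)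
  obtain ⟨s, rfl, rfl, rfl, -, P, R, M, -⟩ := FU.step_z hP D hp hp' lt pp hz a1 a2
  have l := lj (stq_of P)
  rcases memY _ P.hl with el | el | el <;> rcases memY _ P.hj with ej | ej | ej
  · obtain ⟨o, h, E⟩ := step_A1 hP T P R M (fun k => k.1 (el.trans ej.symm)) (y := x)
      ⟨xY, by rw [ej]; exact l1.le⟩ (ej ▸ e1)
    rw [el, ej] at E
    rw [ej] at h
    exact visL o h fun c ω a b q _ => E c ω a b q fun k => absurd rfl k.ne
  · obtain ⟨o, h, E⟩ := step_A1 hP T P R M (fun k => k.2 (by rw [el, ej]; exact e1))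
      (y := s.d.b') ⟨py.hb, by rw [ej]; exact l2.le⟩ (ej ▸ e2)
    rw [el, ej] at E
    rw [ej] at h
    exact visR o h fun c ω a b q k => E c ω a b q fun _ => k.imp_left Eq.symm
  · obtain ⟨o, O, hZ⟩ := step_L hP T P R M ⟨by rw [el, ej]; exact hne, by rw [el, ej]; exact hna⟩
    have hx : x ∈ o.Z := hZ ⟨xY, by rw [el]; exact l1, by rw [ej]; exact l2⟩
    refine ⟨o, _, Or.inl rfl, O.shp, fun c ω cX cY hpd => ⟨fun k1 k2 => ?_, fun k1 k2 => ?_⟩⟩
    · obtain ⟨c', Q⟩ := unh_hid hP T D O hY e1 e2 hne hna hx c ω cX cY hpd (k1 ▸ k2)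
      exact ⟨c', Q.mono fun v _ hv => hv.imp_right fun q =>
        q.elim And.left fun r => absurd r.2.symm k2⟩
    · obtain ⟨c', Q⟩ := unh_hid hP T D O hY e1 e2 hne hna hx c ω cX cY hpd (k1 ▸ k2)
      exact ⟨c', Q.mono fun v _ hv => hv.imp_right fun q =>
        q.elim (fun r => absurd k1 r.2) fun r => ⟨Or.inr r.1, fun m => hne (m.symm.trans r.1)⟩⟩
  · rw [el, ej] at l
    omega
  · obtain ⟨o, h, E⟩ := step_A1 hP T P R M (fun k => k.1 (el.trans ej.symm))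
      (y := s.d.b') ⟨py.hb, by rw [ej]; exact l2.le⟩ (ej ▸ e2)
    rw [el, ej] at E
    rw [ej] at h
    exact visR o h fun c ω a b q _ => E c ω a b q fun k => absurd rfl k.ne
  · obtain ⟨o, h, E⟩ := step_B1 hP T P R M (fun k => k.2 (by rw [el, ej]; exact e2))
      (y := s.d.a') ⟨py.ha, by rw [el]; exact l1.le⟩ (el ▸ e1)
    rw [el, ej] at E
    rw [el] at h
    exact visL o h fun c ω a b q k => E c ω a b q fun _ => k
  · rw [el, ej] at l
    omega
  · rw [el, ej] at l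
    omega
  · obtain ⟨o, h, E⟩ := step_B1 hP T P R M (fun k => k.1 (el.trans ej.symm))
      (y := x) ⟨xY, by rw [el]; exact l2.le⟩ (el ▸ e2)
    rw [el, ej] at E
    rw [el] at h
    exact visR o h fun c ω a b q _ => E c ω a b q fun k => absurd rfl k.ne

end Pool.Agent.P.MP_08fd93_co.FD
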