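import Pool.Agent.P.MP_08fd93_co.FT.T1
import Pool.Agent.P.MP_08fd93_co.FP.P0
import Pool.Agent.P.MP_08fd93_co.FA.F1

/-! Short tails: the plan for two rows in a period when the whole row lies under one cell. -/

set_option autoImplicit false

namespace Pool.Agent.P.MP_08fd93_co.FD

open OV FB FZ FR FK FP2 TT

variable {J : Type} {G : TD J} {φ : Vx J → Vx J} {v z la lb lc ld x y : Vx J} {b : ℤ × ℤ}

/-- vertices on rows of different parity lie in different orbits -/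
theorem par_ne (R : FZ.Rows G.toFD) {i j : ℤ} (hx : x ∈ G.L i) (hy : y ∈ G.L j)
    (o : Odd (i - j)) : x.1 ≠ y.1 := fun e => by
  have := R.wp.per (x.2 - y.2) y
  rw [← FZ.orb_eq e, R.uw.lf _ _ hx, R.uw.lf _ _ hy] at this
  obtain ⟨r, hr⟩ := R.wp.ev (x.2 - y.2)
  obtain ⟨s, hs⟩ := o
  omega

/-- a translate on the same row -/
theorem same_eta (R : FZ.Rows G.toFD) {j : ℤ} {c : ℤ × ℤ} (hx : x ∈ G.L j) (hy : tr c x ∈ G.L j) :
    G.η c = 0 := by
  have := R.wp.per c x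
  rw [R.uw.lf _ _ hx, R.uw.lf _ _ hy] at this
  omega

/-- no translate of the left foot lies strictly inside the bottom of the cell under `la` -/
theorem foot_gap (h : TQ G v z la lb lc ld) (h1 : G.an (G.nx la) = v) (r : G.an la ∉ G.V)
    (hy : y ∈ G.L 0) (e : y.1 = (G.xl z).1) (l : G.ρ (G.an la) < G.ρ y) :
    G.ρ (G.xl z) ≤ G.ρ y := by
  have R := h.rows
  have hF := h.st.lay
  have a1 := h.ord.1
  obtain ⟨n1, n2, -⟩ := R.nx_mem a1
  have e1 := FZ.orb_eq e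
  generalize y.2 - (G.xl z).2 = c at e1
  have c0 := same_eta R h.feet.1.1 (e1 ▸ hy)
  have t1 : tr c (G.nx la) ∈ G.L 1 := by
    have := (hF.ltr c 1 (G.nx la)).2 n1
    rwa [show 1 + (FT G).η c = 1 from by rw [show (FT G).η c = 0 from c0, add_zero]] at this
  have f1 : (FT G).an (G.nx la) = G.xl z := by
    show G.xl (G.an (G.nx la)) = _
    rw [h1, h.xv.1]
  have f2 : (FT G).an (tr c (G.nx la)) = y := by rw [hF.atr c _ (h.st.pr _), f1, ← e1]
  by_cases k : G.ρ (tr c (G.nx la)) ≤ G.ρ la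
  · have := hF.amono 1 _ t1 _ a1 (h.st.pr _) (h.st.pr _) k
    rw [f2, h.st.ft_o r] at this
    exact absurd l (not_lt.2 this)
  · have := hF.amono 1 _ n1 _ t1 (h.st.pr _) (h.st.pr _) (show G.ρ _ ≤ G.ρ _ by omega)
    rwa [f1, f2] at this

/-- The sources and sinks of the plan. -/
def eE (φ : Vx J → Vx J) (la lc x : Vx J) : EJ J := ⟨{la.1, x.1}, {lc.1, (φ la).1}, ∅, ∅⟩

/-- The flags and jobs of the plan. -/
def eY (G : TD J) (E : EJ J) : TX J :=
  ⟨⟨True, False, True, False⟩, .b, .d, AS (FT G) (ed E).Src (ed E).Snk, ∅, ∅, ∅⟩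

theorem modeE_tk (h : TQ G v z la lb lc ld) (hφ : PH (FT G) G.Pr φ) (h1 : G.an (G.nx la) = v)
    (hb : G.η b = 2) (h2 : (G.an la).1 = (G.xr z).1) (h3 : (G.nx (φ la)).1 = (G.xl z).1)
    (hx : x ∈ G.L 0) (h4 : φ x = la) (h5 : x.1 ≠ (φ la).1)
    (fr : FP.Free G la {s(x, G.nx x), s(z, G.xl z)}) :
    TK G φ z (eE φ la lc x) (eY G (eE φ la lc x)) := by
  have R := h.rows
  have hF := h.st.lay
  have T := h.st.tf
  obtain ⟨a1, -, c1, d1, -⟩ := h.ord
  obtain ⟨⟨l0, -⟩, ⟨r0, -⟩, ft, -⟩ := h.feet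
  have p2 : φ la ∈ G.L 2 := by
    have := hφ.mem (R.la a1)
    rwa [show (FT G).f la + 1 = 2 by rw [show (FT G).f la = 1 from R.uw.lf _ _ a1]; rfl] at this
  have rg : G.an la ∉ G.V := fun c => by
    have := (h.eV _).1 c
    rw [h2] at this
    exact T.l_nv r0 ((h.eV _).2 this)
  have q0 : G.an la ∈ G.L 0 := T.an_l a1 (h.st.pr _) rg
  have ac : la.1 ≠ lc.1 := fun e => rg (by
    rw [FZ.orb_eq e, T.atr, h.hc.2]
    exact T.vtr _ _ h.vV)
  have ap : la.1 ≠ (φ la).1 := par_ne R a1 p2 (by decide)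
  have cp : lc.1 ≠ (φ la).1 := par_ne R c1 p2 (by decide)
  have u := hφ.und x (R.la hx)
  rw [h4] at u
  have x1 : G.ρ (G.an la) ≤ G.ρ x := h.st.ft_o rg ▸ u.2.2.1
  have x2 : G.ρ x < G.ρ (G.xl z) := by
    obtain ⟨n1, n2, -⟩ := R.nx_mem a1
    have := u.2.2.2 (G.nx la) (by
      rw [show (FT G).f x = 0 from R.uw.lf _ _ hx]; exact n1) (h.st.pr _)
      (show G.ρ _ < G.ρ _ by omega)
    change G.ρ x < G.ρ (G.xl (G.an (G.nx la))) at this
    rwa [h1, h.xv.1] at this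
  have lr : G.ρ (G.xl z) ≤ G.ρ (G.xr z) := by
    rcases ft with m | m
    · rw [m]
    · have := (R.nx_mem l0).2.1
      rw [m]
      omega
  have H : FA.LB (FT G) (XT G) G.Pr φ b := ⟨hF, hφ, fun j => by
    have := h.n4 j
    change 3 ≤ G.nn j
    omega, hb.ge, fun a => by
    change G.η b ∣ G.η a
    rw [hb]
    exact (R.wp.ev a).two_dvd⟩
  have row : ∀ i j, ∀ y ∈ G.L i, Even (j - i) → ∃ t ∈ G.L j, t.1 = y.1 := fun i j y hy e => by
    obtain ⟨r, hr⟩ := e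
    refine ⟨tr (r • b) y, ?_, rfl⟩
    have := (hF.ltr (r • b) i y).2 hy
    rwa [map_zsmul, show (FT G).η b = 2 from hb, smul_eq_mul, show i + r * 2 = j by omega] at this
  have ne : ∀ j, ∃ m ∈ G.L j, m.1 ∈ (eE φ la lc x).Sk := fun j => by
    rcases Int.even_or_odd j with o | o
    · obtain ⟨t, t1, t2⟩ := row 2 j _ p2 (o.sub (by decide))
      exact ⟨t, t1, Or.inr t2⟩
    · obtain ⟨t, t1, t2⟩ := row 1 j _ c1 (o.sub_odd odd_one)
      exact ⟨t, t1, Or.inl t2⟩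
  have dis : ∀ i ∈ (eE φ la lc x).Sr, i ∉ (eE φ la lc x).Sk := by
    rintro _ (rfl | rfl) (k | k)
    exacts [ac k, ap k, par_ne R hx c1 (by decide) k, h5 k]
  have ok : EOk2 (FT G) (ed (eE φ la lc x)) := by
    refine ⟨fun _ _ k => k, fun _ _ k => k, fun _ _ k => k, fun _ _ k => k, fun _ _ k => k,
      fun _ _ k => k, fun y k => dis _ k, fun _ k => k, fun _ k => k.elim,
      fun j => Or.inl (ne j), fun j s hs t ht k k' l => ?_⟩
    rcases Int.even_or_odd j with o | o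
    · have o' : Odd (j - 1) := o.sub_odd odd_one
      have e := k.resolve_left (par_ne R hs c1 o')
      have e' := k'.resolve_left (par_ne R ht c1 o')
      obtain ⟨g, g1, g2⟩ := row 0 j _ hx (by simpa using o)
      obtain ⟨y, y1, y2, y3⟩ := H.btw hs ht g1 (e.trans e'.symm)
        (fun m => h5 (g2.symm.trans (m.trans e))) l
      exact ⟨y, y1, Or.inr (y2.trans g2), y3⟩
    · have o' : Odd (j - 2) := o.sub_even (by decide)
      have e := k.resolve_right (par_ne R hs p2 o')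
      have e' := k'.resolve_right (par_ne R ht p2 o')
      obtain ⟨g, g1, g2⟩ := row 1 j _ a1 (o.sub_odd odd_one)
      obtain ⟨y, y1, y2, y3⟩ := H.btw hs ht g1 (e.trans e'.symm)
        (fun m => ac (g2.symm.trans (m.trans e))) l
      exact ⟨y, y1, Or.inl (y2.trans g2), y3⟩
  have ori : Ori (FT G) (ed (eE φ la lc x)) (eY G (eE φ la lc x)).A := by
    have := ori_as hF ok Dir.empty
    rwa [Set.union_empty] at this
  have q1 := FZ.orb_eq h2
  generalize (G.an la).2 - (G.xr z).2 = c0 at q1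
  have z0 := same_eta R r0 (q1 ▸ q0)
  have ss : ∀ e ∈ G.LA, ∀ f ∈ SST G (Pin G (eE φ la lc x)) (eY G (eE φ la lc x)).x e, ∃ c,
      (e = tr c la ∧ (f = s(tr c x, G.nx (tr c x)) ∨ f = s(tr c z, tr c (G.xl z)))) ∨
      (e = tr c lc ∧ f = s(tr c v, tr c z)) ∨
      (e = tr c (φ la) ∧ f = s(tr c la, G.nx (tr c la))) := by
    intro e he f hf
    rcases (h.ss_iff hφ he).1 hf with ⟨g, g1, g2, g3, g4, g5⟩ | ⟨c, m | m | m | m⟩
    · rcases g1.resolve_right g4 with (k | k) | k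
      · have k' := FZ.orb_eq k
        exact ⟨_, Or.inr (Or.inr ⟨by rw [← g3, ← hφ.eqv _ _ (R.la a1), ← k'], k' ▸ g5⟩)⟩
      · have k' := FZ.orb_eq k
        exact ⟨_, Or.inl ⟨by rw [← g3, ← h4, ← hφ.eqv _ _ (R.la hx), ← k'], Or.inl (k' ▸ g5)⟩⟩
      · exact k.elim
    exacts [⟨c, Or.inl ⟨m.2.1, Or.inr m.2.2⟩⟩, m.1.elim, ⟨c, Or.inr (Or.inl m.2)⟩, m.1.elim]
  refine ⟨fun i k => ⟨dis i k, fun m => m⟩, fun _ k => k.elim, fun _ k => k.elim,
    fun j => Or.inl ?_, ori, Or.inl trivial, Or.inr (Or.inl rfl), Or.inl trivial, Or.inr rfl,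
    fun n => ⟨?_, fun k => (nomatch k), fun _ k => ?_, fun k => k.elim (nomatch ·) (nomatch ·)⟩,
    keepL_a trivial, fun s s' i k => ⟨Or.inl (Or.inr (Or.inl trivial)),
    Or.inl (Or.inr (Or.inr ?_))⟩, fun e he => ?_⟩
  · obtain ⟨m, m1, m2⟩ := ne j
    exact ⟨m, m1, m2, fun k => k⟩
  · rintro (k | k)
    · exact par_ne R l0 a1 (by decide) k
    rcases eq_or_lt_of_le x1 with m | m
    · have e := R.inj q0 hx m
      have n2 := R.n2 0
      have := l_ne hF 0 (i := G.ρ (G.xl z)) (i' := G.ρ (G.xl z) + 1) (by omega)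
        (show _ < _ + G.nn 0 by omega)
      rw [← hF.nx_l, show (FT G).l 0 (G.ρ (G.xl z)) = G.xl z from hF.l_rho l0] at this
      exact this (k.trans (by rw [← e, h2, ft.resolve_left n.symm]; rfl))
    · exact absurd (foot_gap h h1 rg hx k.symm m) (not_le.2 x2)
  · obtain ⟨k, k1, k2⟩ := (ori.inv c0 _ (R.la r0)).2 k
    rw [← q1] at k1 k2
    obtain ⟨k0, e0, e1⟩ := sh_of_le hF q0 hx x1
    have l : k ≤ k0 := not_lt.1 fun m => k2 k0 m (e0 ▸ Or.inr rfl)
    obtain ⟨m1, m2⟩ := sh_mem hF (G.an la) k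
    rw [show (FT G).f (G.an la) = 0 from R.uw.lf _ _ q0] at m1
    generalize FK.sh (FT G) (G.an la) k = s at k1 m1 m2
    have e : s.1 = (φ la).1 := k1.resolve_left (par_ne R m1 c1 (by decide))
    obtain ⟨n1, n2, -⟩ := R.nx_mem m1
    have e' : (G.nx s).1 = (G.xl z).1 := by
      rw [FZ.orb_eq e, R.nx_tr _ p2]
      exact h3
    have m2 : G.ρ s = G.ρ (G.an la) + k := m2
    have e1 : G.ρ x = G.ρ (G.an la) + k0 := e1
    have := foot_gap h h1 rg n1 e' (by omega)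
    exact h5 (by rw [← e, R.inj hx m1 (by omega)])
  · obtain ⟨c, m1, -, m2, m3⟩ := h.k_x k
    have fs : G.f s = 1 + G.η c := (T.an_f i.hs (h.st.pr _) k).symm.trans m3
    have t0 : tr (-c0) la ∈ G.L 1 := by
      have := (hF.ltr (-c0) 1 la).2 a1
      rwa [map_neg, show (FT G).η c0 = 0 from z0, neg_zero, add_zero] at this
    have t1 : G.an (tr (-c0) la) = G.xr z := by rw [T.atr, q1, tr_neg]
    have s0 : tr (-c) s ∈ G.L 1 := by
      have := (hF.ltr (-c) _ s).2 i.hs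
      rwa [map_neg, show G.f s + -(FT G).η c = 1 from by
        change G.f s + -G.η c = 1
        omega] at this
    have s1 : G.nk (tr (-c) s) = z := by rw [T.nk_tr, TD.nk, m1, tr_neg]
    have lt : G.ρ (tr (-c) s) < G.ρ (tr (-c0) la) := by
      have := ((h.nk_iff s0).1 s1).2
      by_contra m
      by_cases m' : G.ρ (tr (-c0) la) ≤ G.ρ la
      · have := hF.amono 1 _ t0 _ a1 (h.st.pr _) (h.st.pr _) m'
        rw [h.st.ft_o rg, h.st.ft_o (t1 ▸ T.l_nv r0), t1] at this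
        change G.ρ _ ≤ G.ρ _ at this
        omega
      · have := (h.nk_iff t0).2 ⟨by omega, by omega⟩
        exact T.l_nv r0 (t1 ▸ T.nk_v.1 (this ▸ h.zV))
    have tl : tr c (tr (-c0) la) ∈ G.L (G.f s) := fs ▸ (hF.ltr c 1 _).2 t0
    refine ⟨tr c (tr (-c0) la), ⟨0, _, Or.inl ⟨tr c (tr (-c0) la), Or.inl (Or.inl (Or.inl rfl)),
      R.la tl, Or.inl rfl⟩, rfl⟩, tl, ?_, by rw [T.atr, t1, m2]⟩
    have := hF.rd c s0 t0
    rw [tr_neg'] at this
    change G.ρ _ + G.ρ _ = G.ρ _ + G.ρ _ at this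
    omega
  · by_cases ea : e.1 = la.1
    · refine Or.inr (Or.inr (Or.inr (Or.inr ⟨la.2 - e.2, ?_⟩)))
      rw [← FZ.orb_eq ea.symm]
      obtain ⟨X', Q, o⟩ := fr
      refine Or.inl ⟨Or.inl (Or.inl (Or.inl (Or.inl rfl))), _, X', Q, fun f hf => ?_, o⟩
      obtain ⟨c, ⟨m, m'⟩ | ⟨m, -⟩ | ⟨m, -⟩⟩ := ss la (R.la a1) f hf
      · rw [tr_eq_self m.symm, tr_zero, tr_zero, tr_zero] at m'
        exact m'
      · exact absurd (congrArg Prod.fst m) ac
      · exact absurd (congrArg Prod.fst m) ap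
    by_cases em : SST G (Pin G (eE φ la lc x)) (eY G (eE φ la lc x)).x e ⊆ ∅
    · exact Or.inl em
    obtain ⟨f, hf, -⟩ := Set.not_subset.1 em
    refine Or.inr (Or.inl ⟨f, fun f' hf' => ?_, ?_⟩)
    · obtain ⟨c, ⟨m, -⟩ | ⟨m, m'⟩ | ⟨m, m'⟩⟩ := ss e he f hf
      · exact absurd (congrArg Prod.fst m) ea
      all_goals obtain ⟨c', ⟨k, -⟩ | ⟨k, k'⟩ | ⟨k, k'⟩⟩ := ss e he f' hf'
      · exact absurd (congrArg Prod.fst k) ea
      · rw [k', m', tr_eq_tr (k.symm.trans m)]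
        rfl
      · exact absurd (congrArg Prod.fst (m.symm.trans k)) cp
      · exact absurd (congrArg Prod.fst k) ea
      · exact absurd (congrArg Prod.fst (k.symm.trans m)) cp
      · rw [k', m', tr_eq_tr (k.symm.trans m)]
        rfl
    · obtain ⟨c, ⟨m, -⟩ | ⟨m, -⟩ | ⟨m, -⟩⟩ := ss e he f hf
      exacts [absurd (congrArg Prod.fst m) ea, Or.inl (Or.inl (m ▸ rfl)),
        Or.inl (Or.inr (m ▸ rfl))]

theorem modeE_of (col : ∀ (J : Type) [Fintype J] (G : TD J) (φ : Vx J → Vx J)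
    (v z la lb lc ld : Vx J) (E : EJ J) (Y : TX J), TQ G v z la lb lc ld → PH (FT G) G.Pr φ →
      TK G φ z E Y → ∃ c, Col1 G.Γ ∅ c) : FP.S_E := by
  rintro J _ G φ v z la lb lc ld h - hφ ⟨h1, ⟨b, hb⟩, h2, h3, x, hx, h4, h5, fr⟩
  exact col J G φ v z la lb lc ld _ _ h hφ (modeE_tk h hφ h1 hb h2 h3 hx h4 h5 fr)

end Pool.Agent.P.MP_08fd93_co.FD
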