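import Pool.Agent.P.MP_08fd93_co.FD.A1
import Pool.Agent.P.MP_08fd93_co.FY.P0

/-! Depth two: the root does not see the right end and there is no top triangle on the left. -/

set_option autoImplicit false

namespace Pool.Agent.P.MP_08fd93_co.FD

open OV FZ FP2 FW FP FY

variable {J : Type} {G : TD J} {v z u p x L R lb lc : Vx J} {g : Vx J → ℤ}

theorem np_right (h : PF G v z g L R) (la : Last G v R)
    (n : ¬ (G.Γ.Adj z (G.nx R) ∧ G.Γ.Adj z R)) : NP G v (G.nx R) R :=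
  Or.inr fun t e ⟨q, hq, f⟩ a b => (h.apex h.R1 e b a).2.elim (fun k => n (k ▸ ⟨a, b⟩))
    fun k => la t k e q hq f

/-- a long neck is done, a short neck gives a frame with short tails -/
theorem disp [Fintype J] (lz : S_LZ) (h : PF G v z g L R) (w : PW G v) (la : Last G v R)
    (nR : ¬ G.Γ.Adj v (G.nx R)) (nL : NP G v L (G.nx L)) : (∃ c, Col1 G.Γ ∅ c) ∨
      ∃ lb lc φ, TQ G v z L lb lc R ∧ FK.PH (FT G) G.Pr φ := by
  by_cases l : G.ρ (G.xr z) ≤ G.ρ (G.xl z) + 1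
  · obtain ⟨lb, lc, T⟩ := pf_tq h l
    obtain ⟨φ, hφ⟩ := FK.ph_ex T.st.lay h.tf.pne
    exact Or.inr ⟨lb, lc, φ, T, hφ⟩
  refine Or.inl (lz J G v z g L R h w ⟨not_le.1 l, ?_⟩)
  by_cases c : G.Γ.Adj z (G.nx R) ∧ G.Γ.Adj z R
  exacts [Or.inl (tpR h w nR c.1 c.2), Or.inr (notp h w nL (np_right h la c))]

theorem good_col [Fintype J] (g0 : S_G0) (g1 : S_G1) (g2 : S_G2) (lz : S_LZ)
    (h : PF G v z g L R) (w : PW G v) (la : Last G v R) (nR : ¬ G.Γ.Adj v (G.nx R))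
    (nL : NP G v L (G.nx L)) (gd : GD G v z L) : ∃ c, Col1 G.Γ ∅ c := by
  obtain k | ⟨lb, lc, φ, T, hφ⟩ := disp lz h w la nR nL
  · exact k
  by_cases W : Wrap G z L
  swap
  · exact g0 J G φ v z L lb lc R T h.sl hφ ⟨gd, W⟩
  by_cases st : G.Γ.Adj L v ∨ ∃ t ∈ (Bd G L).I, G.Γ.Adj t v ∧
    ((G.Γ.Adj t L ∧ G.Γ.Adj t (G.nx L)) ∨ G.Γ.Adj t (G.an L))
  · exact g1 J G φ v z L lb lc R T h.sl hφ ⟨gd, st⟩
  by_cases c : G.Γ.Adj z (G.nx R) ∧ G.Γ.Adj z R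
  · exact g2 J G φ v z L lb lc R T h.sl hφ ⟨gd, tpr_of h T (vR h w) c.2 c.1⟩
  have h1 := pf_mir h
  obtain ⟨G', u, g', h', s, k⟩ := last h1 (pw_mir w)
  have w' := pw_sm (pw_mir w) s
  have eL : G'.nx (G.nx L) = L := (Sm.nx h1 h' s h1.R1).trans (mir_nx_nx h.rows h.iA.1)
  have eR : G'.nx (G.nx R) = R := (Sm.nx h1 h' s h1.L1).trans (mir_nx_nx h.rows h.iD.1)
  have la' : Last G' v (G.nx L) := fun t m e q hq f => k t m e ⟨q, hq, f⟩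
  have nR' : ¬ G'.Γ.Adj v (G'.nx (G.nx L)) := fun e => st (Or.inl (eL ▸ s.adj.1 e).symm)
  have nL' : NP G' v (G.nx R) (G'.nx (G.nx R)) := eR.symm ▸ (np_sm s).2 (np_right h la c)
  obtain ⟨t, p, hp, vt, tp, up⟩ := w'.sep u h'.vz
  obtain ⟨l, m⟩ := sep_anc h' la' nR' hp vt tp up
  have gd' := gd_of h' (rungL h' w') la' nR' nL' hp vt tp l
    (Or.inr (m.resolve_left fun e => nR (e ▸ s.adj.1 vt)))
  have eΓ : G'.Γ = G.Γ := s.eΓ
  obtain k | ⟨lb', lc', φ', T', hφ'⟩ := disp lz h' w' la' nR' nL'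
  · exact eΓ ▸ k
  refine eΓ ▸ g0 J G' φ' v u _ lb' lc' _ T' h'.sl hφ' ⟨gd', fun W' => ?_⟩
  have a1 : G'.an (G.nx R) = G.an (G.nx R) := s.ea _ h1.iA.1 (rungR h w)
  have a2 : G'.an L = G.an L := s.ea L h.iA.1 (rungL h w :)
  have eρ : ∀ y, G'.ρ y = -G.ρ y := fun y => congrFun s.eρ y
  obtain ⟨n1, n2, -⟩ := h'.rows.nx_mem h'.R1
  have m1 := (h'.tf.mono h'.R1 (h'.pr _) n1 (h'.pr _) (by omega)).resolve_left h'.iD.2.2
  rw [(h'.x_nk h'.nR).2, (h'.tf.xo _ (rungR h' w')).1, eL, a2, eρ, eρ] at m1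
  have m2 := gd'.1.lt
  have m3 := h'.xle
  rw [eρ, eρ] at m2 m3
  rw [a1] at m2
  have x0 : G'.xr u ∈ G.L 0 := (s.eL 0 ▸ h'.feet.2.1.1 :)
  have e := wrap_eq h T gd.1 W (rungR h w) x0 (a1 ▸ W'.symm) (by omega) (by omega)
  have ua : G.Γ.Adj u (G.an L) := e ▸ s.adj.1 h'.feet.2.1.2
  have vu : G.Γ.Adj v u := s.adj.1 h'.vz
  rcases pa h vu (anL0 h w) ua with r | r | r | r | r
  · have := (h.feet.2.2 _ (anL0 h w) (r ▸ ua)).1
    exact absurd gd.1.lt (not_lt.2 this)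
  · exact st (Or.inl (r ▸ vu.symm))
  · exact nR (r ▸ vu)
  · exact st (Or.inr ⟨u, h.bI h.L1 ▸ r, vu.symm, Or.inr ua⟩)
  · exact la u r vu _ (anL0 h w) ua

theorem caseA (g0 : S_G0) (g1 : S_G1) (g2 : S_G2) (lz : S_LZ) : FY.S_A := by
  rintro J _ G0 v z0 g' L R h0 w0 ⟨nR0, nL0⟩
  obtain ⟨G, z, g, h, s, k⟩ := last h0 w0
  have w := pw_sm w0 s
  have la : Last G v R := fun t m e q hq f => k t m e ⟨q, hq, f⟩
  have nR : ¬ G.Γ.Adj v (G.nx R) := fun e => nR0 (Sm.nx h0 h s h0.R1 ▸ s.adj.1 e)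
  have nL : NP G v L (G.nx L) := (Sm.nx h0 h s h0.L1).symm ▸ (np_sm s).2 nL0
  obtain ⟨u, p, hp, vu, up, zp⟩ := w.sep z h.vz
  obtain ⟨l, m⟩ := sep_anc h la nR hp vu up zp
  rw [← s.eΓ]
  rcases m with rfl | m
  swap
  · exact good_col g0 g1 g2 lz h w la nR nL
      (gd_of h (rungL h w) la nR nL hp vu up l (Or.inr m))
  obtain ⟨n1, n2, n3⟩ := h.rows.nx_mem h.R1
  have lt := h.lt
  have e1 : R.1 ≠ u.1 := fun e => by
    rw [h.sl.near2 e (vR h w).symm vu] at lt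
    omega
  have e2 : (G.nx R).1 ≠ u.1 := fun e => by
    rw [h.sl.near3 e n3.symm (vR h w).symm vu] at n2
    omega
  have h' := pf_chg h h.L1 hp up
  have w' := pw_chg w (FR.upa G.an u p)
  have la' : Last (chgT G (FR.upa G.an u p)) v R := fun t m =>
    la t (im_chg (FR.upa_ne e1) (FR.upa_ne e2) ▸ m)
  have gd := gd_of h' (rungL h' w') la' nR nL hp vu up l (Or.inl ⟨rfl, FR.upa_self⟩)
  have := good_col g0 g1 g2 lz h' w' la' nR nL gd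
  exact this

end Pool.Agent.P.MP_08fd93_co.FD
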