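import Pool.Agent.P.MP_08fd93_co.FD.G2

/-! Depth one: the move of the root to its foot. -/

set_option autoImplicit false

namespace Pool.Agent.P.MP_08fd93_co.FD

open OV FZ FN FR FK

variable {J : Type} {Γ : SimpleGraph (Vx J)} {η : ℤ × ℤ →+ ℤ} {f f' : Vx J → ℤ} {G G' : VD J}
  {an an' : Vx J → Vx J} {v u x y z p t : Vx J}

/-- The foot `u` does not see the row one; `u` and its neighbours on the row zero see only `p` on
the row below. -/
structure Back (G : VD J) (u p : Vx J) : Prop where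
  up : ∀ y ∈ G.L 1, ¬ G.Γ.Adj u y
  one : ∀ x ∈ G.L 0, x = u ∨ G.Γ.Adj u x → ∀ t ∈ G.L (-1), G.Γ.Adj x t → t = p

theorem uu_step {j : ℤ} (hx : x ∈ UU Γ f j) (fx : j ≤ f x) (e : Γ.Adj y x) (fy : j ≤ f y) :
    y ∈ UU Γ f j := fun k =>
  let ⟨t, ht, c⟩ := hx k
  ⟨t, ht, (Conn.step (A := {u | j ≤ f u}) fy fx e).trans c⟩

variable (H : Fr1 Γ η f v an G) (R : RH Γ η v f) (s : Sg Γ η u v) (B : Back G u p)
include H R

omit R in
theorem Fr1.ev (a : ℤ × ℤ) : Even (η a) := H.eη ▸ H.vf.wp.ev a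

theorem odd_nk (o : Odd (f x)) : x ∉ G.K := fun k => by
  obtain ⟨a, rfl⟩ := H.k_tr k
  rw [R.per, R.root, zero_add] at o
  exact Int.not_odd_iff_even.2 (Fr1.ev H a) o

/-- a parent of a vertex of the upper part at level zero -/
theorem low1 (hz : z ∈ G.U 0) (e : Γ.Adj z t) (h0 : f t = -1) : t ∈ G.L (-1) :=
  H.vf.uw.lan 0 z hz t (H.eΓ ▸ e) (by rw [H.nk (odd_nk H R (h0 ▸ by decide))]; omega)

include s B

/-- on the level zero only the translates of the foot keep their height -/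
theorem Back.same (R' : RH Γ η u f') (hx : x ∈ UU Γ f 0) (h0 : f x = 0) (h1 : f' x = 0) :
    x.1 = u.1 := by
  obtain ⟨a, ha⟩ := R'.ex x
  rcases hd : Γ.dist (tr a u) x with _ | m
  · rw [← dist_zero R.d1.fine.pl hd]
    rfl
  exfalso
  have fu : f (tr a u) = η a := by rw [R.per, R.inn s, zero_add]
  obtain ⟨c, hc⟩ := Fr1.ev H a
  obtain ⟨y, y1, y2⟩ := (R.anc _ _ _ hd (by omega) (h0 ▸ hx)).child (by omega)
  have fy := y1.2.1
  obtain ⟨t, t1, -⟩ := y2.child (by omega)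
  have m1 := H.row_of_up t1 (odd_nk H R ⟨c, by omega⟩)
  have m2 := (H.vf.uw.ltr (-a) _ y).2 m1
  have e := R.d1.fine.inv (-a) _ _ y1.1
  rw [tr_neg] at e
  rw [H.eη, map_neg, show f y + -η a = 1 by omega] at m2
  exact B.up _ m2 (H.eΓ ▸ e)

theorem back_in (x : Vx J) : Sg Γ η x u ↔ x = p := by
  have u0 := ((H.flat R).1 s).1
  have key : ∀ x, Sg Γ η x u → x = p := fun x sx => by
    obtain ⟨f', -, R'⟩ := exists_rh R.d1 u
    have h0 := R'.inn sx
    have h1 := hts R' R s x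
    by_cases c : f x = 0
    · exact absurd (B.same H R s R' (uu_step (R.root_uu s).2 (R.inn s).ge sx.1 c.ge) c h0)
        (k_nb R' rfl sx.1.symm).1
    · exact B.one u u0 (Or.inl rfl) x
        (low1 H R (H.vf.toRows.l_u u0) sx.1.symm (by omega)) (H.eΓ ▸ sx.1.symm)
  refine ⟨key x, fun e => ?_⟩
  obtain ⟨t, st⟩ := s.inn R.d1
  exact e ▸ key t st ▸ st

theorem back_spike : Spike Γ η u := ⟨p, back_in H R s B⟩

/-- the neighbours of the foot on its level see only `p` below -/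
theorem Back.low (e : Γ.Adj z u) (h0 : f z = 0) (zt : Γ.Adj z t) (ft : f t = -1) : t = p := by
  have V := H.vf
  have r := V.toRows
  have u0 := ((H.flat R).1 s).1
  have nk : z ∉ G.K := fun k => by
    obtain ⟨a, rfl⟩ := H.k_tr k
    exact R.npar a ⟨t, zt, by omega⟩
  have fz : G.f z = 0 := by rw [H.nk nk, h0]
  have zu : z ∈ G.U 0 := r.uw.cl 0 u (r.l_u u0) z (H.eΓ ▸ e.symm) fz.ge
  have t1 := low1 H R zu zt ft
  by_cases c : z ∈ G.L 0
  · exact B.one z c (Or.inr (H.eΓ ▸ e.symm)) t t1 (H.eΓ ▸ zt)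
  have zs : z ∈ G.St 0 := ⟨zu, fun k => k.elim c fun k => by
    have := r.uw.ge _ _ k
    omega⟩
  have rung : ∀ x ∈ G.L 0, G.Γ.Adj u x → p ∈ G.L (0 - 1) ∧ G.Γ.Adj p x := fun x hx a => by
    have nx : G.an x ∉ G.K := fun k => by
      obtain ⟨b, hb⟩ := H.k_tr k
      have := (V.an_v hx (H.pr x) k).2
      obtain ⟨d, hd⟩ := V.wp.ev b
      rw [hb, V.wp.per, H.fv R] at this
      omega
    have l := V.an_l hx (H.pr x) nx
    have ad := (V.aa _ _ hx (H.pr x)).1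
    exact B.one x hx (Or.inr a) _ l ad ▸ ⟨l, ad.symm⟩
  have zE : ({z} : Set (Vx J)) ⊆ G.St 0 := by rintro _ rfl; exact zs
  have nu : u ∈ Nb G.Γ {z} := ⟨z, rfl, H.eΓ ▸ e.symm⟩
  have nt : t ∈ Nb G.Γ {z} := ⟨z, rfl, H.eΓ ▸ zt.symm⟩
  have a1 := r.l_mem 0 (G.ρ u + 1)
  have a2 := r.l_mem 0 (G.ρ u - 1)
  obtain ⟨p1, p2⟩ := rung _ a1 ((r.adj_iff u0 a1).2 (by rw [r.rho]; omega))
  obtain ⟨-, p3⟩ := rung _ a2 ((r.adj_iff u0 a2).2 (by rw [r.rho]; omega))
  refine r.inj t1 p1 (le_antisymm (not_lt.1 fun l => ?_) (not_lt.1 fun l => ?_))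
  · exact (r.nc p1 a1 p2 zE (isConn_single z) (Or.inr ⟨u0, by rw [r.rho]; omega⟩)
      (Or.inl ⟨t1, l⟩)).2 ⟨nu, nt⟩
  · exact (r.nc p1 a2 p3 zE (isConn_single z) (Or.inl ⟨t1, l⟩)
      (Or.inr ⟨u0, by rw [r.rho]; omega⟩)).2 ⟨nt, nu⟩

/-- The move back: the foot has no hub. -/
theorem back_free (R' : RH Γ η u f') (H' : Fr1 Γ η f' u an' G') : HR G' ∧ HL G' := by
  have h := sv_of H' R' (Or.inl (back_spike H R s B))
  have o : ∀ t ∈ G'.K, t.1 = u.1 := fun t k => (H'.eK t).1 k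
  obtain ⟨s1, s2, -⟩ := H'.foot0 R'
  have e1 := (back_in H R s B _).1 s1
  have e2 := (back_in H R s B _).1 s2
  have key : ∀ z, G'.Γ.Adj z u → ∀ t ∈ G'.L (G'.f u - 1), G'.Γ.Adj z t →
      z ∉ G'.L (G'.f u - 1) → t = p := by
    intro z zu t ht zt nz
    rw [H'.eΓ] at zu zt
    have nk := H'.vf.l_nk ht
    have f0 : f' t = 0 := by
      rw [← H'.nk nk, H'.vf.uw.lf _ _ ht, H'.fv R']
      rfl
    have fz : f' z = 1 := ((R'.nb zu.symm).resolve_left fun k => nz (by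
      rw [(back_in H R s B z).1 k.2, ← e1]
      exact (h.foot H'.vk).1.1)).1
    have h1 := hts R' R s z
    have h2 := hts R' R s t
    have h3 := R.lip _ _ zt.symm
    by_cases c : f t = 0
    · exact absurd ((H'.eK t).2 (B.same H R s R' (uu_step (uu_step (R.root_uu s).2 (R.inn s).ge zu
        (by omega)) (by omega) zt.symm c.ge) c f0)) nk
    · exact B.low H R s zu (by omega) zt (by omega)
  exact ⟨hr_one h H'.vk o fun z zu nz t ht zt => by rw [key z zu t ht zt nz, e2],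
    hl_one h H'.vk o fun z zu nz t ht zt => by rw [key z zu t ht zt nz, e1]⟩

end Pool.Agent.P.MP_08fd93_co.FD
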