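import Pool.Agent.P.MP_08fd93_co.FW.T3
import Pool.Agent.P.MP_08fd93_co.FP.P0

/-! Depth two: the data of a good frame at the last anchored neighbour. -/

set_option autoImplicit false

namespace Pool.Agent.P.MP_08fd93_co.FD

open OV FZ FP2 FW FP

variable {J : Type} {G : TD J} {v z u p x L R lb lc : Vx J} {g : Vx J → ℤ}

/-- No neighbour of the root inside the cell under `R` has a foot. -/
def Last (G : TD J) (v R : Vx J) : Prop :=
  ∀ u ∈ G.Im R (G.nx R), G.Γ.Adj v u → ∀ q ∈ G.L 0, ¬ G.Γ.Adj u q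

theorem mul_win {k n : ℤ} (a : 0 ≤ k * n) (b : k * n < n) : k = 0 := by
  rcases lt_trichotomy k 0 with m | m | m
  · nlinarith
  · exact m
  · nlinarith

section

variable (h : PF G v z g L R)
include h

/-- an anchor that the neck does not see lies on the left -/
theorem sep_anc (la : Last G v R) (nR : ¬ G.Γ.Adj v (G.nx R)) (hp : p ∈ G.L 0)
    (vu : G.Γ.Adj v u) (up : G.Γ.Adj u p) (zp : ¬ G.Γ.Adj z p) :
    G.ρ p < G.ρ (G.xl z) ∧ (u = L ∨ u ∈ G.Im L (G.nx L)) := by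
  have ne : G.ρ p ≠ G.ρ (G.xl z) := fun e => zp (h.rows.inj hp h.feet.1.1 e ▸ h.feet.1.2)
  by_cases c : u ∈ G.L 1
  · obtain rfl := (h.row_nb' c vu hp up).resolve_right fun e => nR (e ▸ vu)
    exact ⟨lt_of_le_of_ne (h.ftL hp up) ne, Or.inl rfl⟩
  · have m := (h.loc vu (fun e => zp (e ▸ up)) c hp up).resolve_right fun m => la u m vu p hp up
    exact ⟨lt_of_le_of_ne (h.imL m up hp).2 ne, Or.inr m⟩

theorem gd_of (rg : G.an L ∉ G.V) (la : Last G v R) (nR : ¬ G.Γ.Adj v (G.nx R))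
    (nL : G.Γ.Adj v L ∨ ∀ t, G.Γ.Adj v t → (∃ q ∈ G.L 0, G.Γ.Adj t q) → G.Γ.Adj t L →
      ¬ G.Γ.Adj t (G.nx L)) (hp : p ∈ G.L 0) (vu : G.Γ.Adj v u) (up : G.Γ.Adj u p)
    (l : G.ρ p < G.ρ (G.xl z)) (k : (u = L ∧ G.an L = p) ∨ u ∈ G.Im L (G.nx L)) : GD G v z L := by
  have le : G.ρ (G.an L) ≤ G.ρ p := by
    rcases k with k | k
    · rw [k.2]
    · exact (h.tf.xo _ rg).2.1 ▸ (h.imL k up hp).1
  refine ⟨⟨k.elim (fun k => h.anLV (k.1 ▸ vu)) fun k => h.anL k vu, rg, by omega⟩, ?_,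
    fun s s' i a m => ?_⟩
  · rcases nL with n | n
    · exact Or.inl n.symm
    rcases k with k | k
    · exact Or.inl (k.1 ▸ vu.symm)
    exact Or.inr ⟨⟨u, h.bI h.L1 ▸ k, vu.symm, p, hp, le, l, up⟩,
      fun t _ a b c x hx e => n t a.symm ⟨x, hx, e⟩ b c⟩
  · obtain ⟨t, a1, a2, rfl | m⟩ := h.hubR i a h.feet.2.1.1 m
    exacts [nR a1, la t m a1 _ h.feet.2.1.1 a2]

theorem tpr_of (T : TQ G v z L lb lc R) (vR : G.Γ.Adj v R) (a : G.Γ.Adj z R)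
    (b : G.Γ.Adj z (G.nx R)) : TPR G v z lc R := by
  have e : G.an R = z := (T.st.child_n h.R1 T.zV T.mz).2 ⟨a.symm, h.iD.2.1⟩
  refine ⟨e, b.symm, vR.symm, ?_⟩
  obtain ⟨-, -, c1, -, -, -, l, -⟩ := T.ord
  obtain ⟨n1, n2, -⟩ := h.rows.nx_mem c1
  have ne : G.ρ lc ≠ G.ρ R := fun k => T.vz.ne (by rw [← T.hc.2, h.rows.inj c1 h.R1 k, e])
  refine h.rows.inj n1 h.R1 (by_contra fun k => ?_)
  have := ((T.an_iff n1).1 (h.link c1 h.R1 (T.hc.2 ▸ (h.aa c1).symm) vR n1 (by omega)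
    (by omega))).2
  omega

/-- if the row wraps, the parents of the two outer top vertices are one period apart -/
theorem wrap_eq (T : TQ G v z L lb lc R) (c : LC G v z L) (W : Wrap G z L)
    (rg : G.an (G.nx R) ∉ G.V) (hx : x ∈ G.L 0) (e : x.1 = (G.an (G.nx R)).1)
    (l : G.ρ (G.an L) ≤ G.ρ x) (l' : G.ρ x < G.ρ (G.an (G.nx R))) : x = G.an L := by
  have hF := T.st.lay
  have tf := h.tf
  have a0 : G.an L ∈ G.L 0 := tf.an_l h.L1 (h.pr _) c.rung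
  obtain ⟨n1, n2, -⟩ := h.rows.nx_mem h.R1
  have b0 : G.an (G.nx R) ∈ G.L 0 := tf.an_l n1 (h.pr _) rg
  have r0 := h.feet.2.1.1
  have m1 := (tf.mono h.R1 (h.pr _) n1 (h.pr _) (by omega)).resolve_left h.iD.2.2
  rw [(h.x_nk h.nR).2, (tf.xo _ rg).1] at m1
  obtain ⟨w1, w2⟩ := hF.w_mem 1 h.L1
  obtain ⟨-, w3⟩ := hF.w_mem 1 a0
  change tr ((1 : ℤ) • G.w) L ∈ G.L 1 at w1
  change G.ρ (tr ((1 : ℤ) • G.w) L) = G.ρ L + 1 * G.nn 1 at w2
  change G.ρ (tr ((1 : ℤ) • G.w) (G.an L)) = G.ρ (G.an L) + 1 * G.nn 0 at w3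
  have o := T.ord.2.2.2.2.2.2.2
  have ne : G.ρ R ≠ G.ρ (tr ((1 : ℤ) • G.w) L) := fun k => by
    have := h.iD.2.1
    rw [h.rows.inj h.R1 w1 k, tf.atr] at this
    exact c.rung ((tf.k_tr _ _).1 this)
  have m2 := (tf.mono' n1 (h.pr _) w1 (h.pr _) (by omega)).1
  rw [(tf.xo _ rg).1, tf.atr, (tf.xtr _ _).1, (tf.xo _ c.rung).1] at m2
  have lt := c.lt
  have xle := h.xle
  have n4 := T.n4 0
  obtain ⟨k, -, k1⟩ := FK.same_cls hF a0 r0 W
  change G.ρ (G.xr z) = G.ρ (G.an L) + k * G.nn 0 at k1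
  have k2 : k = 1 := by
    have := mul_win (k := 1 - k) (n := G.nn 0) (by rw [sub_mul]; omega) (by rw [sub_mul]; omega)
    omega
  rw [k2] at k1
  have q : G.an (G.nx R) = G.xr z := h.rows.inj b0 r0 (by omega)
  obtain ⟨k', -, k3⟩ := FK.same_cls hF a0 hx (W.trans (by rw [e, q]))
  change G.ρ x = G.ρ (G.an L) + k' * G.nn 0 at k3
  rw [q] at l'
  have k4 : k' = 0 := mul_win (n := G.nn 0) (by omega) (by omega)
  exact h.rows.inj hx a0 (by rw [k3, k4]; omega)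

end

end Pool.Agent.P.MP_08fd93_co.FD
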