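import Pool.Agent.P.MP_08fd93_co.FD.E1
import Pool.Agent.P.MP_08fd93_co.FT.T4

/-! Short tails: mode E gives a colouring. -/

set_option autoImplicit false

namespace Pool.Agent.P.MP_08fd93_co.FD

theorem modeE : FP.S_E := modeE_of fun _ _ _ _ _ _ _ _ _ _ _ _ h hφ H => TT.TK.col h hφ H

end Pool.Agent.P.MP_08fd93_co.FD
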