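import Pool.Agent.P.MP_08fd93_co.FK.K5
import Pool.Agent.P.MP_08fd93_co.FN.N12
import Pool.Agent.P.MP_08fd93_co.FR.Ear0

/-! Depth one: the rule for the parents next to the root and the position of the hubs. -/

set_option autoImplicit false

namespace Pool.Agent.P.MP_08fd93_co.FD

open OV FZ FN FR FK

variable {J : Type} {Γ : SimpleGraph (Vx J)} {η : ℤ × ℤ →+ ℤ} {f : Vx J → ℤ} {G : VD J}
  {an : Vx J → Vx J} {v x y z p r l g k : Vx J}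

/-- A neighbour of a root with a parent away from this root takes such a parent. -/
def Rule (Γ : SimpleGraph (Vx J)) (f : Vx J → ℤ) (v : Vx J) (an : Vx J → Vx J) : Prop :=
  ∀ x k p : Vx J, k.1 = v.1 → Γ.Adj x k → Γ.Adj x p → rais f v p = rais f v x - 1 →
    ¬ Γ.Adj p k → ¬ Γ.Adj (an x) k

/-- The same rule in a frame. -/
def AR (G : VD J) : Prop := ∀ k ∈ G.K, ∀ x ∈ G.L (G.f k), G.Γ.Adj x k →
  ∀ p ∈ G.L (G.f k - 1), G.Γ.Adj x p → ¬ G.Γ.Adj p k → ¬ G.Γ.Adj (G.an x) k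

theorem exists_rule (R : RH Γ η v f) (A : An1 Γ f v an) : ∃ an', An1 Γ f v an' ∧ Rule Γ f v an' ∧
    ∀ x, an' x = an x ∨ ∃ k : Vx J, k.1 = v.1 ∧ Γ.Adj x k ∧ Γ.Adj (an x) k := by
  set P : Vx J → Vx J → Prop := fun x y => ∃ k : Vx J, k.1 = v.1 ∧ Γ.Adj x k ∧ Γ.Adj (an x) k ∧
    Γ.Adj x y ∧ rais f v y = rais f v x - 1 ∧ ¬ Γ.Adj y k with hP
  have I := R.d1.fine.inv
  have inv : ∀ a x y, P x y → P (tr a x) (tr a y) := fun a x y ⟨k, k1, k2, k3, k4, k5, k6⟩ =>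
    ⟨tr a k, k1, I a _ _ k2, A.atr a x ▸ I a _ _ k3, I a _ _ k4, by
      rw [rais_per R, rais_per R]; omega, fun c => k6 (by simpa only [tr_neg] using I (-a) _ _ c)⟩
  obtain ⟨an', h1, h2⟩ := eqv_choice (fun x y => P x y ∨ ((¬ ∃ y, P x y) ∧ y = an x))
    fun a x y hh => hh.imp (inv a x y) fun c => ⟨fun ⟨t, m⟩ => c.1 ⟨_, by
      simpa only [tr_neg] using inv (-a) _ _ m⟩, by rw [c.2, A.atr]⟩
  have h3 : ∀ x, P x (an' x) ∨ ((¬ ∃ y, P x y) ∧ an' x = an x) := fun x => h2 x (by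
    by_cases c : ∃ y, P x y
    exacts [let ⟨y, m⟩ := c; ⟨y, Or.inl m⟩, ⟨_, Or.inr ⟨c, rfl⟩⟩])
  refine ⟨an', ⟨h1, fun x => ?_, fun x => ?_⟩, fun x k p k1 k2 k3 k4 k5 => ?_, fun x => ?_⟩
  · rcases h3 x with ⟨k, -, -, -, m, -⟩ | m
    exacts [m, m.2 ▸ A.adj x]
  · rcases h3 x with ⟨k, -, -, -, -, m, -⟩ | m
    exacts [Or.inl m, m.2 ▸ A.alt x]
  · rcases h3 x with ⟨t, t1, t2, -, -, -, m⟩ | m
    exacts [k_uniq R t1 k1 t2 k2 ▸ m, fun c => m.1 ⟨p, k, k1, k2, m.2 ▸ c, k3, k4, k5⟩]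
  · rcases h3 x with ⟨t, t1, t2, t3, -⟩ | m
    exacts [Or.inr ⟨t, t1, t2, t3⟩, Or.inl m.2]

theorem Rule.upa (R : RH Γ η v f) (h : Rule Γ f v an)
    (c : ∀ k : Vx J, k.1 = v.1 → Γ.Adj x k → ¬ Γ.Adj p k) : Rule Γ f v (upa an x p) := by
  intro y k t k1 k2 k3 k4 k5
  by_cases e : y.1 = x.1
  · rw [upa_orb e]
    intro m
    have a := R.d1.fine.inv (-(y.2 - x.2)) _ _ k2
    have b := R.d1.fine.inv (-(y.2 - x.2)) _ _ m
    rw [orb_neg e] at a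
    rw [tr_neg] at b
    exact c (tr _ k) k1 a b
  · rw [upa_ne e]
    exact h y k t k1 k2 k3 k4 k5

theorem Rule.ar (h : Rule Γ f v an) (H : Fr1 Γ η f v an G) : AR G := by
  intro k hk x hx e p hp e' n
  have a := H.vf.uw.lf _ _ hx
  have b := H.vf.uw.lf _ _ hp
  rw [H.eΓ] at e e' n ⊢
  rw [H.ea]
  refine h x k p ((H.eK k).1 hk) e e' ?_ n
  rw [← H.ef]
  omega

theorem AR.mir (h : AR G) : AR (mir G) := h

/-- `z` lies in the cell under the right side edge `r`, sees the stem and the row to the right of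
the foot. -/
structure HubR (G : VD J) (r z y : Vx J) : Prop where
  cell : z ∈ (Bc G r).I ∨ z ∈ (Bc G r).Y
  zk : G.Γ.Adj z (G.an r)
  zy : G.Γ.Adj z y
  row : y ∈ G.L (G.f r - 1)
  lo : G.ρ (G.xr (G.an r)) < G.ρ y
  hi : G.ρ y ≤ G.ρ (G.xl (G.an (G.nx r)))

/-- The mirror image: `l` is the left side edge. -/
structure HubL (G : VD J) (l z y : Vx J) : Prop where
  cell : z ∈ (Bc G l).I ∨ z ∈ (Bc G l).Y
  zk : G.Γ.Adj z (G.an (G.nx l))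
  zy : G.Γ.Adj z y
  row : y ∈ G.L (G.f l - 1)
  lo : G.ρ (G.xr (G.an l)) ≤ G.ρ y
  hi : G.ρ y < G.ρ (G.xl (G.an (G.nx l)))

theorem cut_adj {j : ℤ} {s : Vx J} (V : VFrm G) (hb : Brg G.toFD j p s (G.T (G.an s)))
    (hx : G.Lf j p s x) (hy : G.Rg j p s y) : ¬ G.Γ.Adj x y :=
  (V.ncv hb (Set.empty_subset _) Set.finite_empty isConn_empty hx hy).1

variable (h : SV G)
include h

theorem k_nk (hk : k ∈ G.K) (e : G.Γ.Adj z k) : z ∉ G.K := fun m =>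
  e.ne (h.t_mem ⟨m, hk, h.vf.kn z m k hk e⟩)

theorem hubR_loc (i : IsR G r) (zk : G.Γ.Adj z (G.an r)) (nz : z ∉ G.L (G.f r - 1))
    (hy : y ∈ G.L (G.f r - 1)) (zy : G.Γ.Adj z y) (lo : G.ρ (G.xr (G.an r)) < G.ρ y)
    (c : z = G.nx r → G.ρ y ≤ G.ρ (G.xl (G.an (G.nx r)))) : HubR G r z y := by
  have V := h.vf
  have R := V.toRows
  obtain ⟨n1, n2, -⟩ := R.nx_mem i.1
  have fk := (V.an_v i.1 (h.pr _) i.2.1).2
  have kl : G.Lf (G.f r) (G.xl (G.an (G.nx r))) (G.nx r) (G.an r) :=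
    Or.inr (Or.inr ⟨i.2.1, fk, fun m => i.2.2 (h.t_mem m).symm, by
      have := (h.isR_ge i (R.la (h.kid i.2.1).1) (h.kid i.2.1).2).2
      omega⟩)
  have yr : G.Rg (G.f r) (G.xr (G.an r)) r y := Or.inl ⟨hy, lo⟩
  have b1 := V.brg i.1 (h.pr _) (Or.inr rfl)
  have b2 := V.brg n1 (h.pr _) (Or.inl rfl)
  rcases V.att (V.k_st i.2.1 fk) zk.symm with m | m | m | m
  · have key : ∀ t ∈ Nb G.Γ (G.Cp (G.f r) z), ¬ G.Lf (G.f r) (G.xr (G.an r)) r t ∧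
        ¬ G.Rg (G.f r) (G.xl (G.an (G.nx r))) (G.nx r) t := fun t ht =>
      ⟨fun a => V.side i.1 (h.pr _) (Or.inr rfl) m ht (cpv_nb zy) a yr,
        fun a => V.side n1 (h.pr _) (Or.inl rfl) m (cpv_nb zk) ht kl a⟩
    exact ⟨Or.inl (h.bc_I i.1 ▸ ⟨m, key⟩), zk, zy, hy, lo,
      not_lt.1 fun a => (key y (cpv_nb zy)).2 (Or.inl ⟨hy, a⟩)⟩
  · exact absurd m nz
  · have a1 : G.ρ r ≤ G.ρ z := not_lt.1 fun a => cut_adj V b1 (Or.inr (Or.inl ⟨m, a⟩)) yr zy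
    have a2 : G.ρ z ≤ G.ρ (G.nx r) :=
      not_lt.1 fun a => cut_adj V b2 kl (Or.inr (Or.inl ⟨m, a⟩)) zk.symm
    refine ⟨Or.inr ⟨m, a1, a2⟩, zk, zy, hy, lo, ?_⟩
    rcases eq_or_lt_of_le a2 with e | e
    exacts [c (R.inj m n1 e),
      not_lt.1 fun a => cut_adj V b2 (Or.inr (Or.inl ⟨m, e⟩)) (Or.inl ⟨hy, a⟩) zy]
  · exact absurd m.1 (k_nk h i.2.1 zk)

theorem hubL_loc (i : IsL G l) (zk : G.Γ.Adj z (G.an (G.nx l))) (nz : z ∉ G.L (G.f l - 1))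
    (hy : y ∈ G.L (G.f l - 1)) (zy : G.Γ.Adj z y) (hi : G.ρ y < G.ρ (G.xl (G.an (G.nx l))))
    (c : z = l → G.ρ (G.xr (G.an l)) ≤ G.ρ y) : HubL G l z y := by
  have V := h.vf
  have R := V.toRows
  obtain ⟨n1, n2, -⟩ := R.nx_mem i.1
  have fk := (V.an_v n1 (h.pr _) i.2.1).2
  have kr : G.Rg (G.f l) (G.xr (G.an l)) l (G.an (G.nx l)) :=
    Or.inr (Or.inr ⟨i.2.1, fk, fun m => i.2.2 (h.t_mem m).symm,
      (h.isL_le i (R.la (h.kid i.2.1).1) (h.kid i.2.1).2).2⟩)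
  have yl : G.Lf (G.f l) (G.xl (G.an (G.nx l))) (G.nx l) y := Or.inl ⟨hy, hi⟩
  have b1 := V.brg i.1 (h.pr _) (Or.inr rfl)
  have b2 := V.brg n1 (h.pr _) (Or.inl rfl)
  rcases V.att (V.k_st i.2.1 fk) zk.symm with m | m | m | m
  · have key : ∀ t ∈ Nb G.Γ (G.Cp (G.f l) z), ¬ G.Lf (G.f l) (G.xr (G.an l)) l t ∧
        ¬ G.Rg (G.f l) (G.xl (G.an (G.nx l))) (G.nx l) t := fun t ht =>
      ⟨fun a => V.side i.1 (h.pr _) (Or.inr rfl) m ht (cpv_nb zk) a kr,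
        fun a => V.side n1 (h.pr _) (Or.inl rfl) m (cpv_nb zy) ht yl a⟩
    exact ⟨Or.inl (h.bc_I i.1 ▸ ⟨m, key⟩), zk, zy, hy,
      not_lt.1 fun a => (key y (cpv_nb zy)).1 (Or.inl ⟨hy, a⟩), hi⟩
  · exact absurd m nz
  · have a1 : G.ρ l ≤ G.ρ z :=
      not_lt.1 fun a => cut_adj V b1 (Or.inr (Or.inl ⟨m, a⟩)) kr zk
    have a2 : G.ρ z ≤ G.ρ (G.nx l) :=
      not_lt.1 fun a => cut_adj V b2 yl (Or.inr (Or.inl ⟨m, a⟩)) zy.symm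
    refine ⟨Or.inr ⟨m, a1, a2⟩, zk, zy, hy, ?_, hi⟩
    rcases eq_or_lt_of_le a1 with e | e
    exacts [c (R.inj m i.1 e.symm),
      not_lt.1 fun a => cut_adj V b1 (Or.inl ⟨hy, a⟩) (Or.inr (Or.inl ⟨m, e⟩)) zy.symm]
  · exact absurd m.1 (k_nk h i.2.1 zk)

/-- under the rule a hub lies in the cell under the side edge -/
theorem hubR_of (A : AR G) (i : IsR G r) (zk : G.Γ.Adj z (G.an r)) (nz : z ∉ G.L (G.f r - 1))
    (hy : y ∈ G.L (G.f r - 1)) (zy : G.Γ.Adj z y) (lo : G.ρ (G.xr (G.an r)) < G.ρ y) :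
    ∃ t, HubR G r z t ∧ (t = y ∨ z = G.nx r ∧ t = G.an z) := by
  by_cases c : z = G.nx r
  swap
  · exact ⟨y, hubR_loc h i zk nz hy zy lo fun e => absurd e c, Or.inl rfl⟩
  subst c
  have V := h.vf
  obtain ⟨n1, n2, -⟩ := V.toRows.nx_mem i.1
  have fk := (V.an_v i.1 (h.pr _) i.2.1).2
  obtain ⟨-, f2, f3⟩ := h.foot i.2.1
  have ad := (V.aa _ _ n1 (h.pr _)).1
  have nk : G.an (G.nx r) ∉ G.K := fun m => i.2.2 (h.kq _ m _ i.2.1 _ ad zk)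
  have na := A _ i.2.1 _ (fk ▸ n1) zk y (fk ▸ hy) zy fun e =>
    absurd (f3 y (fk ▸ hy) e.symm).2 (not_le.2 lo)
  have al := V.an_l n1 (h.pr _) nk
  have m := (V.mono i.1 (h.pr _) n1 (h.pr _) (by omega)).resolve_left i.2.2.symm
  have e := (V.xo _ nk).1
  refine ⟨_, hubR_loc h i zk nz al ad (lt_of_le_of_ne (e ▸ m) fun q => na ?_)
    fun _ => by rw [e], Or.inr ⟨rfl, rfl⟩⟩
  rw [← V.toRows.inj (fk ▸ f2.1) al q]
  exact f2.2.symm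

theorem hubL_of (A : AR G) (i : IsL G l) (zk : G.Γ.Adj z (G.an (G.nx l)))
    (nz : z ∉ G.L (G.f l - 1)) (hy : y ∈ G.L (G.f l - 1)) (zy : G.Γ.Adj z y)
    (hi : G.ρ y < G.ρ (G.xl (G.an (G.nx l)))) :
    ∃ t, HubL G l z t ∧ (t = y ∨ z = l ∧ t = G.an z) := by
  by_cases c : z = l
  swap
  · exact ⟨y, hubL_loc h i zk nz hy zy hi fun e => absurd e c, Or.inl rfl⟩
  subst c
  have V := h.vf
  obtain ⟨n1, n2, -⟩ := V.toRows.nx_mem i.1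
  have fk := (V.an_v n1 (h.pr _) i.2.1).2
  obtain ⟨f2, -, f3⟩ := h.foot i.2.1
  have ad := (V.aa _ _ i.1 (h.pr _)).1
  have nk : G.an z ∉ G.K := fun m => i.2.2 (h.kq _ m _ i.2.1 _ ad zk)
  have na := A _ i.2.1 _ (fk ▸ i.1) zk y (fk ▸ hy) zy fun e =>
    absurd (f3 y (fk ▸ hy) e.symm).1 (not_le.2 hi)
  have al := V.an_l i.1 (h.pr _) nk
  have m := (V.mono i.1 (h.pr _) n1 (h.pr _) (by omega)).resolve_left i.2.2
  have e := (V.xo _ nk).2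
  refine ⟨_, hubL_loc h i zk nz al ad (lt_of_le_of_ne (e ▸ m) fun q => na ?_)
    fun _ => by rw [e], Or.inr ⟨rfl, rfl⟩⟩
  rw [V.toRows.inj al (fk ▸ f2.1) q]
  exact f2.2.symm

/-- a hub of a translate of the stem `k` gives a hub of `k` -/
theorem hub_tr (hk : k ∈ G.K) (a : ℤ × ℤ) (zk : G.Γ.Adj z (tr a k))
    (nz : z ∉ G.L (G.f (tr a k) - 1)) (hy : y ∈ G.L (G.f (tr a k) - 1)) (zy : G.Γ.Adj z y) :
    ∃ z' y', G.Γ.Adj z' k ∧ z' ∉ G.L (G.f k - 1) ∧ y' ∈ G.L (G.f k - 1) ∧ G.Γ.Adj z' y' ∧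
      G.ρ y - G.ρ (G.xr (tr a k)) = G.ρ y' - G.ρ (G.xr k) ∧
      G.ρ y - G.ρ (G.xl (tr a k)) = G.ρ y' - G.ρ (G.xl k) := by
  have R := h.vf.toRows
  obtain ⟨κ, hκ⟩ := R.rho_tr a (G.f k - 1)
  obtain ⟨f1, f2, -⟩ := h.foot hk
  have e : G.f (tr a k) - 1 = G.f k - 1 + G.η a := by rw [R.wp.per]; ring
  rw [e] at nz hy
  have m : tr (-a) y ∈ G.L (G.f k - 1) := (R.uw.ltr a _ _).1 (by rwa [tr_neg'])
  have b := R.fine.inv (-a) _ _ zk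
  rw [tr_neg] at b
  have c1 : G.ρ _ = G.ρ _ + κ := (hκ _ m).2
  have c2 : G.ρ _ = G.ρ _ + κ := (hκ _ f1.1).2
  have c3 : G.ρ _ = G.ρ _ + κ := (hκ _ f2.1).2
  rw [tr_neg'] at c1
  refine ⟨_, _, b, fun q => nz (by simpa only [tr_neg'] using (hκ _ q).1), m,
    R.fine.inv (-a) _ _ zy, ?_⟩
  rw [(h.vf.xtr a k).1, (h.vf.xtr a k).2.1]
  omega

theorem hr_one (hk : k ∈ G.K) (o : ∀ t ∈ G.K, t.1 = k.1) (c : ∀ z, G.Γ.Adj z k →
    z ∉ G.L (G.f k - 1) → ∀ y ∈ G.L (G.f k - 1), G.Γ.Adj z y → G.ρ y ≤ G.ρ (G.xr k)) : HR G := by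
  intro t ht z zk nz y hy zy
  rw [orb_eq (o t ht)] at zk nz hy ⊢
  obtain ⟨z', y', a1, a2, a3, a4, a5, -⟩ := hub_tr h hk _ zk nz hy zy
  have := c z' a1 a2 y' a3 a4
  omega

theorem hl_one (hk : k ∈ G.K) (o : ∀ t ∈ G.K, t.1 = k.1) (c : ∀ z, G.Γ.Adj z k →
    z ∉ G.L (G.f k - 1) → ∀ y ∈ G.L (G.f k - 1), G.Γ.Adj z y → G.ρ (G.xl k) ≤ G.ρ y) : HL G := by
  intro t ht z zk nz y hy zy
  rw [orb_eq (o t ht)] at zk nz hy ⊢
  obtain ⟨z', y', a1, a2, a3, a4, -, a5⟩ := hub_tr h hk _ zk nz hy zy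
  have := c z' a1 a2 y' a3 a4
  omega

theorem hubR_ex (A : AR G) (i : IsR G r) (o : ∀ t ∈ G.K, t.1 = (G.an r).1) (n : ¬ HR G) :
    ∃ z y, HubR G r z y := by
  by_contra c
  have fk := (h.vf.an_v i.1 (h.pr _) i.2.1).2
  refine n (hr_one h i.2.1 o fun z zk nz y hy zy => not_lt.1 fun lo => ?_)
  rw [fk] at nz hy
  obtain ⟨t, m, -⟩ := hubR_of h A i zk nz hy zy lo
  exact c ⟨z, t, m⟩

theorem hubL_ex (A : AR G) (i : IsL G l) (o : ∀ t ∈ G.K, t.1 = (G.an (G.nx l)).1) (n : ¬ HL G) :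
    ∃ z y, HubL G l z y := by
  by_contra c
  have fk := (h.vf.an_v (h.vf.toRows.nx_mem i.1).1 (h.pr _) i.2.1).2
  refine n (hl_one h i.2.1 o fun z zk nz y hy zy => not_lt.1 fun lo => ?_)
  rw [fk] at nz hy
  obtain ⟨t, m, -⟩ := hubL_of h A i zk nz hy zy lo
  exact c ⟨z, t, m⟩

/-- a narrow side has no hub -/
theorem hr_of_narrow (A : AR G) (i : IsR G r) (o : ∀ t ∈ G.K, t.1 = (G.an r).1)
    (n : G.ρ (G.xl (G.an (G.nx r))) ≤ G.ρ (G.xr (G.an r))) : HR G := by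
  by_contra c
  obtain ⟨z, y, m⟩ := hubR_ex h A i o c
  exact absurd (m.lo.trans_le m.hi) (not_lt.2 n)

theorem hl_of_narrow (A : AR G) (i : IsL G l) (o : ∀ t ∈ G.K, t.1 = (G.an (G.nx l)).1)
    (n : G.ρ (G.xl (G.an (G.nx l))) ≤ G.ρ (G.xr (G.an l))) : HL G := by
  by_contra c
  obtain ⟨z, y, m⟩ := hubL_ex h A i o c
  exact absurd (m.lo.trans_lt m.hi) (not_lt.2 n)

/-- the edge at the stem and an edge of the row up to `y` lie in the span of the hub -/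
theorem HubR.span (i : IsR G r) (b : HubR G r z y) (hg : g ∈ G.L (G.f r - 1))
    (l1 : G.ρ (G.xr (G.an r)) ≤ G.ρ g) (l2 : G.ρ g < G.ρ y) :
    Span G r s(G.an r, G.xr (G.an r)) s(g, G.nx g) := by
  obtain ⟨m1, m2, m3⟩ := h.vf.toRows.nx_mem hg
  have ne := i.2.2.symm
  have D := h.bc_disc i.1
  have hi := b.hi
  have lo := b.lo
  have yX : y ∈ (Bc G r).X := h.bt_of i.1 ne b.row lo.le hi
  have old : ∀ x ∈ G.L (G.f r - 1), (Bc G r).ρ x = G.ρ x := fun x hx => ord_old (h.vf.l_nk hx)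
  have f1 : _ ∈ PE G.Γ (Bc G r).X := (h.ssR (P := ∅) (pL := True) (pR := True) i trivial).1
  have f2 : s(g, G.nx g) ∈ PE G.Γ (Bc G r).X :=
    mem_PE.2 ⟨h.bt_of i.1 ne hg l1 (by omega), h.bt_of i.1 ne m1 (by omega) (by omega), m3⟩
  refine ⟨f1, f2, z, b.cell, _, D.px.ha, y, yX, b.zk, b.zy,
    fun x hx => ⟨D.px.lo x (hx.elim (PE.ends f1) (PE.ends f2)), ?_⟩⟩
  rcases hx with hx | hx <;> rcases Sym2.mem_iff.1 hx with rfl | rfl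
  · exact D.px.lo y yX
  · rw [old _ (h.vf.feet i.1 (h.pr _)).2.1, old _ b.row]
    omega
  · rw [old _ hg, old _ b.row]
    omega
  · rw [old _ m1, old _ b.row]
    omega

theorem HubL.span (i : IsL G l) (b : HubL G l z y) (hg : g ∈ G.L (G.f l - 1))
    (l1 : G.ρ y ≤ G.ρ g) (l2 : G.ρ g < G.ρ (G.xl (G.an (G.nx l)))) :
    Span G l s(G.an (G.nx l), G.xl (G.an (G.nx l))) s(g, G.nx g) := by
  obtain ⟨m1, m2, m3⟩ := h.vf.toRows.nx_mem hg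
  have ne := i.2.2
  have D := h.bc_disc i.1
  have hi := b.hi
  have lo := b.lo
  have yX : y ∈ (Bc G l).X := h.bt_of i.1 ne b.row lo hi.le
  have old : ∀ x ∈ G.L (G.f l - 1), (Bc G l).ρ x = G.ρ x := fun x hx => ord_old (h.vf.l_nk hx)
  have f1 : _ ∈ PE G.Γ (Bc G l).X := (h.ssL (P := ∅) (pL := True) (pR := True) i trivial).1
  have f2 : s(g, G.nx g) ∈ PE G.Γ (Bc G l).X :=
    mem_PE.2 ⟨h.bt_of i.1 ne hg (by omega) l2.le, h.bt_of i.1 ne m1 (by omega) (by omega), m3⟩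
  refine ⟨f1, f2, z, b.cell, y, yX, _, D.px.hb, b.zy, b.zk,
    fun x hx => ⟨?_, D.px.hi x (hx.elim (PE.ends f1) (PE.ends f2))⟩⟩
  rcases hx with hx | hx <;> rcases Sym2.mem_iff.1 hx with rfl | rfl
  · exact D.px.hi y yX
  · rw [old _ (h.vf.feet (h.vf.toRows.nx_mem i.1).1 (h.pr _)).1, old _ b.row]
    omega
  · rw [old _ hg, old _ b.row]
    omega
  · rw [old _ m1, old _ b.row]
    omega

omit h in
theorem span_symm {e : Vx J} {a b : Sym2 (Vx J)} (s : Span G e a b) : Span G e b a :=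
  let ⟨m, m', w, hw, c, hc, d, hd, e1, e2, r⟩ := s
  ⟨m', m, w, hw, c, hc, d, hd, e1, e2, fun x k => r x k.symm⟩

/-- one vertex that is not the chosen child is not a hub on both sides -/
theorem one_side (hk : k ∈ G.K) (zk : G.Γ.Adj z k) (nz : z ∉ G.L (G.f k - 1)) (nc : z ≠ G.ch k)
    (hx : x ∈ G.L (G.f k - 1)) (hy : y ∈ G.L (G.f k - 1)) (zx : G.Γ.Adj z x) (zy : G.Γ.Adj z y)
    (l1 : G.ρ x < G.ρ (G.xl k)) (l2 : G.ρ (G.xr k) < G.ρ y) : False := by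
  have V := h.vf
  obtain ⟨c1, c2⟩ := h.kid hk
  obtain ⟨f1, -, f3⟩ := h.foot hk
  have l3 := (f3 _ f1.1 f1.2).2
  have xl : G.Lf (G.f k) (G.xl k) (G.ch k) x := Or.inl ⟨hx, l1⟩
  have yr : G.Rg (G.f k) (G.xl k) (G.ch k) y := Or.inl ⟨hy, by omega⟩
  have ft : G.Ft (G.ch k) (G.xl k) := Or.inl (by rw [c2])
  rcases V.att (V.k_st hk rfl) zk.symm with m | m | m | m
  · exact V.side c1 (h.pr _) ft m (cpv_nb zx) (cpv_nb zy) xl yr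
  · exact nz m
  · rcases lt_trichotomy (G.ρ z) (G.ρ (G.ch k)) with c | c | c
    exacts [cut_adj V (V.brg c1 (h.pr _) ft) (Or.inr (Or.inl ⟨m, c⟩)) yr zy,
      nc (V.toRows.inj m c1 c),
      cut_adj V (V.brg c1 (h.pr _) ft) xl (Or.inr (Or.inl ⟨m, c⟩)) zx.symm]
  · exact k_nk h hk zk m.1

end Pool.Agent.P.MP_08fd93_co.FD
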