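import Pool.Agent.P.MP_08fd93_co.FD.G1

/-! Depth one: the move of the root to a middle child. -/

set_option autoImplicit false

namespace Pool.Agent.P.MP_08fd93_co.FD

open OV FZ FN FR FK

variable {J : Type} {Γ : SimpleGraph (Vx J)} {η : ℤ × ℤ →+ ℤ} {f f' : Vx J → ℤ} {G G' : VD J}
  {an an' : Vx J → Vx J} {v x y z p t a b : Vx J}

theorem exists_rh (H : D1 Γ η) (y : Vx J) :
    ∃ f, IsH Γ η {y} (fun _ => 0) f ∧ RH Γ η y f :=
  let ⟨f, k⟩ := H.exists_h y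
  ⟨f, k, RH.of H k rfl⟩

/-- the heights of the two ends of an edge of slack one -/
theorem hts (R : RH Γ η v f) (R' : RH Γ η y f') (s : Sg Γ η v y) (x : Vx J) :
    f' x ≤ f x ∧ f x ≤ f' x + 1 := by
  obtain ⟨e, b, hb⟩ := s
  constructor
  · obtain ⟨a, ha⟩ := R.ex x
    have h1 := R'.le (a - b) x
    have h2 := dist_tri R.d1.fine.pl (tr (a - b) y) (tr a v) x
    have h3 := R.d1.fine.dist_tr (a - b) y (tr b v)
    rw [tr_tr, add_sub_cancel] at h3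
    rw [map_sub] at h1
    omega
  · obtain ⟨a, ha⟩ := R'.ex x
    have h1 := R.le a x
    have h2 := R.d1.tri' x (R.d1.fine.inv a _ _ e)
    omega

theorem hts_root (R : RH Γ η v f) (R' : RH Γ η y f') (s : Sg Γ η v y) (e : x.1 = v.1) :
    f' x = f x := by
  rw [orb_eq e, R.per, R'.per, R.root, R'.inn s]

/-- a vertex whose height drops has a parent that is not a root -/
theorem drop (R : RH Γ η v f) (R' : RH Γ η y f') (s : Sg Γ η v y) (e : f' t + 1 = f t) :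
    t.1 = y.1 ∨ ∃ p, Γ.Adj t p ∧ f p = f t - 1 ∧ p.1 ≠ v.1 := by
  obtain ⟨a, ha⟩ := R'.ex t
  rcases hd : Γ.dist (tr a y) t with _ | m
  · exact Or.inl (by rw [← dist_zero R.d1.fine.pl hd]; rfl)
  · obtain ⟨p, ep, dp⟩ := dist_step R.d1.fine.pl hd
    have h1 := R'.le a p
    have h2 := (hts R R' s p).2
    have h3 := R.lip _ _ ep
    refine Or.inr ⟨p, ep.symm, by omega, fun c => ?_⟩
    have := hts_root R R' s c
    omega

/-- `a` and `b` are children of the root and `y` lies between them. -/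
structure Mid (G : VD J) (v a y b : Vx J) : Prop where
  ha : a ∈ G.L 1
  hy : y ∈ G.L 1
  hb : b ∈ G.L 1
  l1 : G.ρ a < G.ρ y
  l2 : G.ρ y < G.ρ b
  ea : G.an a = v
  eb : G.an b = v

variable (H : Fr1 Γ η f v an G) (R : RH Γ η v f) (A : An1 Γ f v an) (M : Mid G v a y b)
include H R A M

theorem Mid.kid (hx : x ∈ G.L 1) (l1 : G.ρ a ≤ G.ρ x) (l2 : G.ρ x ≤ G.ρ b) :
    Γ.Adj x v ∧ ∀ z ∈ G.L 0, ¬ Γ.Adj x z :=
  (H.child R A hx H.vk).1 ((H.vf.btw M.ha (H.pr _) hx (H.pr _) M.hb (H.pr _) l1 l2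
    (M.ea.trans M.eb.symm) (M.ea.symm ▸ H.vk)).trans M.ea)

/-- the fan over the root does not see the row zero -/
theorem Mid.fan (hx : x ∈ G.L 1) (l1 : G.ρ a < G.ρ x) (l2 : G.ρ x < G.ρ b) (ht : t ∈ G.S 1)
    (nx : x ∈ Nb G.Γ (G.Cp 1 t)) (hp : p ∈ G.L 0) : p ∉ Nb G.Γ (G.Cp 1 t) := fun np =>
  ((Brg.of (F := G.toFD) (j := 1) hp hx (fun _ k => (cpv_sub ht k).1) (H.vf.cp_fin ht) (cpv_conn t)
    np nx).nc H.vf.toRows (E := {v}) (by rintro _ rfl; exact H.vst R) (Set.finite_singleton _)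
    (isConn_single _) (Set.disjoint_singleton_left.2 fun k => (cpv_sub ht k).2 H.vk)
    (Or.inr ⟨M.ha, l1⟩) (Or.inr ⟨M.hb, l2⟩)).2
    ⟨⟨v, rfl, H.eΓ ▸ (M.kid H R A M.ha le_rfl (by omega)).1⟩,
      ⟨v, rfl, H.eΓ ▸ (M.kid H R A M.hb (by omega) le_rfl).1⟩⟩

/-- the neighbours of a middle child -/
theorem Mid.nb (e : Γ.Adj z y) (n : z ≠ v) : z ∈ G.U 1 ∧ (z ∈ G.S 1 ∨
    (z ∈ G.L 1 ∧ (G.ρ z = G.ρ y + 1 ∨ G.ρ y = G.ρ z + 1)) ∨ z ∈ G.U 2) := by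
  have r := H.vf.toRows
  have k := M.kid H R A M.hy M.l1.le M.l2.le
  rcases r.l_nb M.hy (H.eΓ ▸ e.symm) with m | m | m | m
  · exact absurd e.symm (k.2 z m)
  · exact ⟨m.1, Or.inl ⟨m, fun c => n (k_uniq R ((H.eK z).1 c) rfl e.symm k.1)⟩⟩
  · exact ⟨r.l_u m, Or.inr (Or.inl ⟨m, (r.adj_iff M.hy m).1 (H.eΓ ▸ e.symm)⟩)⟩
  · exact ⟨r.uw.mono 1 2 (by omega) m, Or.inr (Or.inr m)⟩

theorem Mid.nb_no (e : Γ.Adj z y) (n : z ≠ v) (hp : p ∈ G.L 0) : ¬ Γ.Adj z p := by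
  intro c
  have r := H.vf.toRows
  have l1 := M.l1
  have l2 := M.l2
  rcases (M.nb H R A e n).2 with m | m | m
  · exact M.fan H R A M.hy l1 l2 m (cpv_nb (H.eΓ ▸ e)) hp (cpv_nb (H.eΓ ▸ c))
  · exact (M.kid H R A m.1 (by omega) (by omega)).2 p hp c
  · have := r.uw.lf _ _ hp
    rcases r.u_nb (j := 1) m (H.eΓ ▸ c) with k | k
    · have := r.uw.lf _ _ k
      omega
    · have := r.uw.ge _ _ k
      omega

omit R A M in
theorem low0 (hz : z ∈ G.U 1) (e : Γ.Adj z p) (n : p.1 ≠ v.1) (h0 : f p = 0) : p ∈ G.L 0 :=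
  H.vf.uw.lan 1 z hz p (H.eΓ ▸ e) (by rw [H.nk fun k => n ((H.eK p).1 k)]; omega)

/-- a middle child on a closed walk of slack one is a spike over the root -/
theorem fwd_in (s : Sg Γ η v y) (x : Vx J) : Sg Γ η x y ↔ x = v := by
  refine ⟨fun sx => ?_, fun e => e ▸ s⟩
  by_contra n
  obtain ⟨f', -, R'⟩ := exists_rh R.d1 y
  have k := M.kid H R A M.hy M.l1.le M.l2.le
  have h0 := R'.inn sx
  have h1 := hts R R' s x
  by_cases c : f x = 0
  · exact k.2 x (low0 H (H.vf.toRows.l_u M.hy) sx.1.symm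
      (fun e => n (k_uniq R e rfl sx.1.symm k.1)) c) sx.1.symm
  · rcases drop (t := x) R R' s (by omega) with e | ⟨p, e, hp, np⟩
    · exact (k_nb R' rfl sx.1.symm).1 e
    · exact M.nb_no H R A sx.1 n (low0 H (M.nb H R A sx.1 n).1 e np (by omega)) e

theorem fwd_spike (s : Sg Γ η v y) : Spike Γ η y := ⟨v, fwd_in H R A M s⟩

/-- in the funnel only the outer children see the new row zero -/
theorem Mid.hub (fn : ∀ x ∈ G.L 1, G.an x ∈ G.K) (s : Sg Γ η v y) (R' : RH Γ η y f')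
    (e : Γ.Adj z y) (n : z ≠ v) (zt : Γ.Adj z t) (ty : t ≠ y) (tv : t ≠ v) (h0 : f' t = 0) :
    (z = a ∧ G.ρ y = G.ρ a + 1) ∨ (z = b ∧ G.ρ b = G.ρ y + 1) := by
  have V := H.vf
  have r := V.toRows
  have l1 := M.l1
  have l2 := M.l2
  obtain ⟨zu, hz⟩ := M.nb H R A e n
  by_cases c : t.1 = v.1
  · exfalso
    have tk := (H.eK t).2 c
    have ft : G.f t = 1 := by rw [H.ef, rais_k c, ← hts_root R R' s c, h0]; rfl
    rcases hz with m | m | m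
    · have c1 : G.ch t ∈ G.L 1 := ft ▸ (V.kc t tk).1
      have nt : t ∉ G.T v := by rwa [H.eT v H.vk]
      have zy : y ∈ Nb G.Γ (G.Cp 1 z) := cpv_nb (H.eΓ ▸ e)
      have zt' : t ∈ Nb G.Γ (G.Cp 1 z) := cpv_nb (H.eΓ ▸ zt)
      by_cases q : G.ρ (G.ch t) < G.ρ a
      · exact V.side M.ha (H.pr _) (Or.inl rfl) m zt' zy
          (Or.inr (Or.inr ⟨tk, ft, M.ea.symm ▸ nt, q⟩)) (Or.inr (Or.inl ⟨M.hy, l1⟩))
      by_cases q' : G.ρ b < G.ρ (G.ch t)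
      · exact V.side M.hb (H.pr _) (Or.inl rfl) m zy zt' (Or.inr (Or.inl ⟨M.hy, l2⟩))
          (Or.inr (Or.inr ⟨tk, ft, M.eb.symm ▸ nt, q'⟩))
      refine tv (k_uniq R c rfl ?_ (M.kid H R A c1 (by omega) (by omega)).1)
      have := (V.aa _ _ c1 (H.pr _)).1
      rwa [(H.eV t tk).2, H.eΓ] at this
    · exact tv (k_uniq R c rfl zt (M.kid H R A m.1 (by omega) (by omega)).1)
    · rcases r.u_nb (j := 1) m (H.eΓ ▸ zt) with k | k
      exacts [V.l_nk k tk, (V.k_st tk ft).2 (Or.inr k)]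
  have h1 := hts R R' s t
  by_cases c0 : f t = 0
  · exact absurd zt (M.nb_no H R A e n (low0 H zu zt c c0))
  obtain ⟨p, tp, hp, np⟩ := (drop (t := t) R R' s (by omega)).resolve_left fun k =>
    ty (k_uniq R' k rfl zt e)
  have nk : t ∉ G.K := fun k => c ((H.eK t).1 k)
  have ft : G.f t = 1 := by rw [H.nk nk]; omega
  have tu : t ∈ G.U 1 := r.uw.cl 1 z zu t (H.eΓ ▸ zt) ft.ge
  have p0 := low0 H tu tp np (by omega)
  have ts : t ∈ G.S 1 := by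
    refine ⟨⟨tu, ?_⟩, nk⟩
    rintro (k | k)
    · exact (H.pure_iff A k).1 (fn t k) p p0 tp
    · have := r.uw.ge _ _ k
      omega
  have pn : p ∈ Nb G.Γ (G.Cp 1 t) := cpv_nb (H.eΓ ▸ tp)
  rcases hz with m | m | m
  · exact absurd pn (M.fan H R A M.hy l1 l2 ts
      ⟨z, Conn.step ts m (H.eΓ ▸ zt.symm), H.eΓ ▸ e.symm⟩ p0)
  · have := fun q q' => M.fan H R A m.1 q q' ts (cpv_nb (H.eΓ ▸ zt.symm)) p0 pn
    by_cases q : G.ρ a < G.ρ z
    · have q' : ¬ G.ρ z < G.ρ b := this q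
      exact Or.inr ⟨r.inj m.1 M.hb (by omega), by omega⟩
    · exact Or.inl ⟨r.inj m.1 M.ha (by omega), by omega⟩
  · rcases r.u_nb (j := 1) m (H.eΓ ▸ zt) with k | k
    exacts [absurd (Or.inl k) ts.1.2, absurd (Or.inr k) ts.1.2]

/-- The forward move: in the funnel with at least four children a middle child on a closed walk of
slack one has a side without hub. -/
theorem fwd_free (fn : ∀ x ∈ G.L 1, G.an x ∈ G.K) (w : G.ρ a + 3 ≤ G.ρ b) (s : Sg Γ η v y)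
    (R' : RH Γ η y f') (H' : Fr1 Γ η f' y an' G') : HR G' ∨ HL G' := by
  have h := sv_of H' R' (Or.inl (fwd_spike H R A M s))
  have o : ∀ t ∈ G'.K, t.1 = y.1 := fun t k => (H'.eK t).1 k
  obtain ⟨s1, s2, -⟩ := H'.foot0 R'
  have e1 := (fwd_in H R A M s _).1 s1
  have e2 := (fwd_in H R A M s _).1 s2
  have v0 : v ∈ G'.L (G'.f y - 1) := e1 ▸ (h.foot H'.vk).1.1
  have key : ∀ z, G'.Γ.Adj z y → z ∉ G'.L (G'.f y - 1) → ∀ t ∈ G'.L (G'.f y - 1), G'.Γ.Adj z t →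
      G'.ρ t ≠ G'.ρ v → (z = a ∧ G.ρ y = G.ρ a + 1) ∨ (z = b ∧ G.ρ b = G.ρ y + 1) := by
    intro z zy nz t ht zt n
    have nk := H'.vf.l_nk ht
    refine M.hub (t := t) H R A fn s R' (H'.eΓ ▸ zy) (fun c => nz (c ▸ v0)) (H'.eΓ ▸ zt)
      (fun c => nk (by rw [c]; exact H'.vk)) (fun c => n (by rw [c])) ?_
    rw [← H'.nk nk, H'.vf.uw.lf _ _ ht, H'.fv R']
    rfl
  by_contra c
  rw [not_or] at c
  refine c.1 (hr_one h H'.vk o fun z zy nz t ht zt => not_lt.1 fun l => ?_)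
  refine c.2 (hl_one h H'.vk o fun z' zy' nz' t' ht' zt' => not_lt.1 fun l' => ?_)
  have k1 := key z zy nz t ht zt (by rw [e2] at l; omega)
  have k2 := key z' zy' nz' t' ht' zt' (by rw [e1] at l'; omega)
  have l1 := M.l1
  have l2 := M.l2
  obtain rfl : z = z' := by
    rcases k1 with ⟨rfl, k1⟩ | ⟨rfl, k1⟩ <;> rcases k2 with ⟨rfl, k2⟩ | ⟨rfl, k2⟩
    all_goals first | rfl | omega
  have zv : Γ.Adj z v := by
    rcases k1 with ⟨rfl, -⟩ | ⟨rfl, -⟩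
    exacts [(M.kid H R A M.ha le_rfl (by omega)).1, (M.kid H R A M.hb (by omega) le_rfl).1]
  refine one_side h H'.vk zy nz (fun q => ?_) ht' ht zt' zt l' l
  obtain ⟨c1, c2⟩ := h.kid H'.vk
  have := (H'.vf.pure _ _ c1 (h.pr _) (c2.symm ▸ H'.vk)).1
  rw [c2, e1, ← q, H'.eΓ] at this
  exact this zv

end Pool.Agent.P.MP_08fd93_co.FD
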