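import Pool.Agent.P.MP_08fd93_co.FD.G3
import Pool.Agent.P.MP_08fd93_co.FA.Sp0

/-! Depth one: the two moves of the root end in a root with a side without hub. -/

set_option autoImplicit false

namespace Pool.Agent.P.MP_08fd93_co.FD

open OV FZ FN FR FK FA

variable {J : Type} [Fintype J] {Γ : SimpleGraph (Vx J)} {η : ℤ × ℤ →+ ℤ} {f : Vx J → ℤ}
  {G : VD J} {an : Vx J → Vx J} {v a y b p : Vx J}

theorem fwd_col (F : S_Free) (D : SD1 Γ η f v an G) (fn : Funnel G) (M : Mid G v a y b)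
    (w : G.ρ a + 3 ≤ G.ρ b) (s : Sg Γ η v y) : ∃ c, Col1 Γ ∅ c := by
  obtain ⟨f', -, R'⟩ := exists_rh D.R.d1 y
  obtain ⟨an', G', D'⟩ := sd1_ex D.hJ D.hG D.hN D.ev R' (fwd_spike D.H D.R D.A M s)
  exact F J Γ η f' y an' G' D' (fwd_free D.H D.R D.A M fn w s R' D'.H)

theorem back_col (F : S_Free) (D : SD1 Γ η f v an G) (B : Back G (G.xl v) p) :
    ∃ c, Col1 Γ ∅ c := by
  have s := (D.H.foot0 D.R).1
  obtain ⟨f', -, R'⟩ := exists_rh D.R.d1 (G.xl v)
  obtain ⟨an', G', D'⟩ := sd1_ex D.hJ D.hG D.hN D.ev R' (back_spike D.H D.R s B)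
  exact F J Γ η f' _ an' G' D' (Or.inl (back_free D.H D.R s B R' D'.H).1)

omit [Fintype J] in
/-- a child of the root whose chain of descendants reaches the foot lies on a closed walk of slack
one -/
theorem sg_of_chain (D : SD1 Γ η f v an G) (hy : y ∈ G.L 1) (e : G.an y = v) {c : ℤ × ℤ} {n : ℕ}
    (k : ∀ i < n, G.an^[i + 1] (tr c (G.xl v)) ∉ G.K) (r : G.an^[n] (tr c (G.xl v)) = y) :
    Sg Γ η v y := by
  have H := D.H
  have R := H.vf.toRows
  have s := (H.foot0 D.R).1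
  have u0 := (R.uw.ltr c 0 _).2 ((H.flat D.R).1 s).1
  have key : ∀ i ≤ n, G.an^[i] (tr c (G.xl v)) ∈ G.L (0 + G.η c - i) ∧
      (Γ.dist (G.an^[i] (tr c (G.xl v))) (tr c (G.xl v)) : ℤ) ≤ i := by
    intro i
    induction i with
    | zero => exact fun _ => ⟨by simpa using u0, by simp⟩
    | succ i ih =>
      intro hi
      obtain ⟨a1, a2⟩ := ih (by omega)
      have nk := k i (by omega)
      rw [Function.iterate_succ_apply'] at nk ⊢
      have := D.R.d1.tri' (tr c (G.xl v)) (H.eΓ ▸ (H.vf.aa _ _ a1 (H.pr _)).1.symm)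
      refine ⟨?_, by push_cast; omega⟩
      rw [show 0 + G.η c - ((i + 1 : ℕ) : ℤ) = 0 + G.η c - i - 1 by push_cast; ring]
      exact H.vf.an_l a1 (H.pr _) nk
  obtain ⟨a1, a2⟩ := key n le_rfl
  rw [r] at a1 a2
  have lv := (R.uw.lf _ _ a1).symm.trans (R.uw.lf _ _ hy)
  rw [H.eη] at lv
  have t := D.R.d1.tri y (D.R.d1.fine.inv c _ _ s.1)
  have ad : Γ.Adj v y := by
    have := (H.vf.aa _ _ hy (H.pr _)).1
    rw [e, H.eΓ] at this
    exact this.symm
  refine D.R.d1.sg ad (b := c) ?_ (by omega)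
  rintro rfl
  rw [map_zero] at lv
  omega

end Pool.Agent.P.MP_08fd93_co.FD
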