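import Pool.Agent.P.MP_08fd93_co.OV.PkStp4a
import Pool.Agent.P.MP_08fd93_co.OV.Base

/-! Flexible main step, part 1: the second path of the left disc. -/

set_option autoImplicit false

namespace Pool.Agent.P.MP_08fd93_co.FD

open OV OV.P65 OV.PkStp4aP

/-- The geometry of the main step; `ql` need not be the least neighbour of `v`. -/
structure Stq {W : Type} (H : SimpleGraph W) (s : SD W) : Prop where
  disc : Disc H s.d
  hp : s.p ∈ s.d.X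
  hp' : s.p' ∈ s.d.X
  lt : s.d.ρ s.p < s.d.ρ s.p'
  pp : H.Adj s.p s.p'
  pt : Pth H s.τ s.σ s.z s.v
  ti : s.τ ⊆ s.d.I
  zp : H.Adj s.z s.p
  zp' : H.Adj s.z s.p'
  tn : ∀ t ∈ s.τ, ∃ x ∈ s.d.X, s.d.ρ x ≤ s.d.ρ s.p ∧ H.Adj t x
  ty : ∀ t ∈ s.τ, ∀ y ∈ s.d.Y, H.Adj t y → t = s.v ∧ s.d.ρ y ≤ s.d.ρ s.qj
  hl : s.ql ∈ s.d.Y
  hj : s.qj ∈ s.d.Y
  vl : H.Adj s.v s.ql
  vj : H.Adj s.v s.qj

/-- The four regions. -/
structure Rgq {W : Type} (H : SimpleGraph W) (s : SD W) : Prop where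
  n0 : Nb H (s.Rg 0) ⊆ s.Rg 0 ∪ (s.XL ∪ s.YL ∪ s.τ)
  n1 : Nb H (s.Rg 1) ⊆ s.Rg 1 ∪ (s.XM ∪ s.YM ∪ s.τ)
  n2 : Nb H (s.Rg 2) ⊆ s.Rg 2 ∪ {s.p, s.p', s.z}
  n3 : Nb H (s.Rg 3) ⊆ s.Rg 3 ∪ (s.YN ∪ {s.v, s.ql, s.qj})
  c2 : ∀ x ∈ s.Rg 2, (∃ y, Conn H (s.Rg 2) x y ∧ H.Adj y s.p) ∧
    ∃ y, Conn H (s.Rg 2) x y ∧ H.Adj y s.p'
  c3 : ∀ x ∈ s.Rg 3, ∃ y y' q q', Conn H (s.Rg 3) x y ∧ Conn H (s.Rg 3) x y' ∧ H.Adj y q ∧
    H.Adj y' q' ∧ q ∈ s.d.Y ∧ q' ∈ s.d.Y ∧ H.Adj q q' ∧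
    s.d.ρ s.ql ≤ s.d.ρ q ∧ s.d.ρ q < s.d.ρ q' ∧ s.d.ρ q' ≤ s.d.ρ s.qj
  nv : s.Long H → s.v ∈ Nb H (s.Rg 3 ∪ s.YN)
  r0 : ∀ x ∈ s.XL, ∀ y ∈ s.d.Y, H.Adj x y → y ∈ s.YL
  r1 : ∀ x ∈ s.XM, ∀ y ∈ s.d.Y, H.Adj x y → y ∈ s.YM

/-- The right disc of the main step is solved with any strict set; `qj` stays on the second path,
`u` is the vertex before it; `u` is `v` unless `ql = qj`. -/
structure PA {W : Type} (H : SimpleGraph W) (s : SD W) (o : OD W) (u : W) : Prop where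
  stp : Stq H s
  reg : Rgq H s
  dm : Disc H s.dM
  s1 : Shp H s.dM ∅ o
  jY : s.qj ∈ o.Y
  uT : u ∈ s.T1 o
  uj : H.Adj u s.qj
  uv : u = s.v ∨ s.ql = s.qj
  lo : s.v ∈ o.Y → ∀ y ∈ s.d.Y, H.Adj s.v y → s.d.ρ s.ql ≤ s.d.ρ y

/-- The strict edges of the left disc inside the new path. -/
def SL0 {W : Type} (H : SimpleGraph W) (s : SD W) (o : OD W) : Set (Sym2 W) :=
  {e | ∃ t ∈ s.T1 o, ∃ t', H.Adj t t' ∧ e = s(t, t') ∧ t' ∈ s.T1 o ∧ t' ∈ s.τ ∧ o.ρ t < o.ρ t'}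

section
variable {W : Type} {H : SimpleGraph W} {s : SD W}

theorem stq_of (h : Stp H s) : Stq H s :=
  ⟨h.disc, h.hp, h.hp', h.lt, h.pp, h.pt, h.ti, h.zp, h.zp', h.tn,
    fun t ht y hy a => ⟨(h.ty t ht y hy a).1, (h.ty t ht y hy a).2.2⟩, h.hl, h.hj, h.vl, h.vj⟩

theorem rgq_of (h : Reg H s) : Rgq H s :=
  ⟨h.n0, h.n1, h.n2, h.n3, h.c2, h.c3, h.nv, h.r0, h.r1⟩

theorem tauX (hS : Stq H s) {x : W} (hx : x ∈ s.d.X) : x ∉ s.τ :=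
  fun h => hS.ti h (Or.inr (Or.inl hx))

theorem tauY (hS : Stq H s) {x : W} (hx : x ∈ s.d.Y) : x ∉ s.τ :=
  fun h => hS.ti h (Or.inr (Or.inr hx))

theorem lj (hS : Stq H s) : s.d.ρ s.ql ≤ s.d.ρ s.qj := (hS.ty _ hS.pt.hb _ hS.hl hS.vl).2

theorem jYM (hS : Stq H s) : s.qj ∈ s.YM := ⟨hS.hj, le_rfl⟩

theorem zM (hS : Stq H s) {x : W} (hx : x ∈ s.d.Z) : x ∈ s.dM.Z := by
  have hz := Set.disjoint_left.1 hS.disc.dz hx
  by_contra hc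
  rcases notZM.1 hc with (b | b | b) | b
  · exact hz (Or.inl b.1)
  · exact hS.ti b (Or.inl hx)
  · exact hz (Or.inr b.1)
  · exact b.1 (Or.inl hx)

theorem ynLong (hS : Stq H s) {x : W} (hx : x ∈ s.YN) : s.Long H := by
  obtain ⟨h1, h2, h3⟩ := hx
  refine ⟨fun e => ?_, fun hadj => ?_⟩
  · rw [e] at h2
    omega
  · have := gap hS.disc.py hS.hl hS.hj (by omega) hadj h1
    omega

theorem long_of (h : Stq H s) {x : W} (hx : x ∈ s.YN) : s.Long H := ynLong h hx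

theorem xLM (h : Stq H s) {x : W} (hx : x ∈ s.d.X) : x ∈ s.XL ∨ x ∈ s.XM :=
  (gap h.disc.px h.hp h.hp' h.lt h.pp hx).imp (fun k => ⟨hx, k⟩) fun k => ⟨hx, k⟩

theorem sl0_sub {o : OD W} : SL0 H s o ⊆ s.SL H o := by
  rintro e ⟨t, ht, t', a, rfl, k⟩
  exact ⟨t, ht, t', a, rfl, Or.inr k⟩

end

variable {W : Type} {H : SimpleGraph W} {s : SD W} {o : OD W} {u : W}

namespace PA

theorem py (h : PA H s o u) : Pth H o.Y o.ρ s.z s.d.b' := h.s1.disc.py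

theorem ul (h : PA H s o u) : H.Adj u s.ql := by
  rcases h.uv with e | e
  · rw [e]
    exact h.stp.vl
  · rw [e]
    exact h.uj

theorem lv (h : PA H s o u) (hL : s.ql ≠ s.qj) : u = s.v := h.uv.resolve_right hL

theorem rj (h : PA H s o u) : o.ρ s.qj = s.d.ρ s.qj := by
  rw [h.s1.ry _ (Or.inr (jYM h.stp)) h.jY, rM_not (tauY h.stp h.stp.hj)]

theorem um (h : PA H s o u) {t : W} (ht : t ∈ s.T1 o) : o.ρ t ≤ o.ρ u := by
  have h1 := h.uT.2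
  have h2 := ht.2
  have h3 := h.rj
  have h4 := gap h.py h.uT.1 h.jY (by omega) h.uj ht.1
  omega

theorem tauT (h : PA H s o u) {t : W} (ht : t ∈ s.τ) (hy : t ∈ o.Y) : t ∈ s.T1 o := by
  refine ⟨hy, ?_⟩
  rw [h.s1.ry _ (Or.inl ht) hy, rM_tau ht]
  have := h.stp.pt.hi t ht
  omega

theorem zT (h : PA H s o u) : s.z ∈ s.T1 o := h.tauT h.stp.pt.ha h.py.ha

theorem tI (h : PA H s o u) : s.T1 o ⊆ s.τ ∪ s.Rg 1 := by
  intro t ht
  have hO := h.s1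
  have h1 : t ∉ s.dM.Z := fun k => yz hO ht.1 (hO.zz k)
  rcases notZM.1 h1 with (k | k | k) | k
  · rcases hO.xx k with h2 | h2
    · exact absurd ht.1 (xy hO h2)
    · exact absurd h2 (yz hO ht.1)
  · exact Or.inl k
  · have h2 := hO.ry t (Or.inr k) ht.1
    rw [rM_not (tauY h.stp k.1)] at h2
    have h3 := k.2
    have h4 := ht.2
    omega
  · exact Or.inr k

theorem wI (h : PA H s o u) : s.W1 o ⊆ s.τ ∪ s.Rg 1 := by
  have hO := h.s1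
  have hM := h.dm
  rintro x ⟨hz, hn, ht⟩
  rcases notZM.1 hn with (k | k | k) | k
  · exact absurd ht.1 (xy hO (hiddenX hM hO k hz))
  · exact Or.inl k
  · obtain ⟨hy, -, a, -, b, hb, -, h2, -, h4, -, h6⟩ := hiddenY hM hO (x := x) (Or.inr k) hz
    rw [rM_not (tauY h.stp k.1)] at h2
    have h7 := gap h.py hy hb h6 h4 h.jY
    have h8 := h.rj
    have h9 := ht.2
    have h10 := k.2
    omega
  · exact Or.inr k

theorem tw (h : PA H s o u) : s.τ ⊆ s.T1 o ∪ s.W1 o := by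
  have hO := h.s1
  have hM := h.dm
  intro t ht
  rcases hO.yy (Or.inl ht) with k | k
  · exact Or.inl (h.tauT ht k)
  · obtain ⟨hy, hnew, a, ha, b, -, h1, -, h3, -, h5, -⟩ := hiddenY hM hO (x := t) (Or.inl ht) k
    refine Or.inr ⟨k, notZM.2 (Or.inl (Or.inr (Or.inl ht))), hy, ?_⟩
    rw [rM_tau ht] at h1
    have h6 := h.stp.pt.hi t ht
    have h7 := gap h.py ha hy h5 h3 h.jY
    have h8 := h.rj
    have h9 : o.ρ (o.ax t) ≠ o.ρ s.qj := fun e =>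
      hnew (by rw [h.py.inj _ hy _ h.jY e]; exact Or.inr (jYM h.stp))
    omega

theorem T1I (h : PA H s o u) {t : W} (ht : t ∈ s.T1 o) : t ∈ s.d.I := by
  rcases h.tI ht with k | k
  · exact h.stp.ti k
  · exact k.1

theorem W1I (h : PA H s o u) {t : W} (ht : t ∈ s.W1 o) : t ∈ s.d.I := by
  rcases h.wI ht with k | k
  · exact h.stp.ti k
  · exact k.1

theorem YT (h : PA H s o u) {y : W} (hy : y ∈ s.d.Y) : y ∉ s.T1 o :=
  fun k => h.T1I k (Or.inr (Or.inr hy))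

theorem XT (h : PA H s o u) {y : W} (hy : y ∈ s.d.X) : y ∉ s.T1 o :=
  fun k => h.T1I k (Or.inr (Or.inl hy))

/-- the only vertex of the new path next to `qj` -/
theorem jeq (h : PA H s o u) {t : W} (ht : t ∈ s.T1 o) (e : H.Adj t s.qj) : t = u := by
  have h1 := h.uT.2
  have h2 := ht.2
  have h3 := h.rj
  have h4 := gap h.py ht.1 h.jY (by omega) e h.uT.1
  have h5 := h.um ht
  exact h.py.inj _ ht.1 _ h.uT.1 (by omega)

theorem veq (h : PA H s o u) (hv : s.v ∈ s.T1 o) : s.v = u := h.jeq hv h.stp.vj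

theorem pyL (h : PA H s o u) : Pth H (s.dL o).Y (s.dL o).ρ s.d.a' s.z := by
  have hS := h.stp
  have hR := h.reg
  have py := h.py
  have hA : Pth H s.YL (s.dL o).ρ s.d.a' s.ql :=
    congr (seg_lo hS.disc.py hS.hl fun _ => Iff.rfl) fun x hx => rL_not (h.YT hx.1)
  have hu := h.uT.2
  have hB0 : Pth H (s.T1 o) o.ρ s.z u := seg_lo py h.uT.1 fun x =>
    ⟨fun k => ⟨k.1, h.um k⟩, fun k => ⟨k.1, by have := k.2; omega⟩⟩
  have hB : Pth H (s.T1 o) (s.dL o).ρ u s.z :=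
    congr (rev hB0 (s.d.ρ s.ql + s.d.ρ s.qj)) fun x hx => by rw [rL_T hx]; ring
  refine join hA hB (fun _ => Iff.rfl) (Or.inr ⟨?_, h.ul.symm⟩) ?_
  · rw [rL_not (h.YT hS.hl), rL_T h.uT]
    omega
  · intro y hy w hw hadj
    refine Or.inr (Or.inr ?_)
    have hu2 := hy.2
    have hlj := lj hS
    rcases h.tI hw with k | k
    · obtain ⟨h1, -⟩ := hS.ty w k y hy.1 hadj.symm
      have h2 := h.lo (h1 ▸ hw.1) y hy.1 (h1 ▸ hadj.symm)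
      exact ⟨hS.disc.py.inj _ hy.1 _ hS.hl (by omega), h1.trans (h.veq (h1 ▸ hw))⟩
    · have h1 : y ∈ s.YM := by
        rcases hR.n1 ⟨w, k, hadj⟩ with h1 | (h1 | h1) | h1
        · exact absurd (Or.inr (Or.inr hy.1)) h1.1
        · exact absurd hy.1 (Set.disjoint_left.1 hS.disc.dxy h1.1)
        · exact h1
        · exact absurd h1 (tauY hS hy.1)
      have h2 := h1.2
      have e1 : y = s.ql := hS.disc.py.inj _ hy.1 _ hS.hl (by omega)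
      have e2 : y = s.qj := hS.disc.py.inj _ hy.1 _ hS.hj (by omega)
      exact ⟨e1, h.jeq hw (e2 ▸ hadj.symm)⟩

/-- Normal form of a strict edge of the left disc. -/
theorem slForm (h : PA H s o u) {e : Sym2 W} (he : e ∈ s.SL H o) :
    ∃ t ∈ (s.dL o).Y, ∃ t' ∈ (s.dL o).Y, H.Adj t' t ∧ e = s(t, t') ∧
      (s.dL o).ρ t' < (s.dL o).ρ t ∧ s.d.ρ s.ql ≤ (s.dL o).ρ t' ∧
      (s.d.ρ s.ql < (s.dL o).ρ t' → t' ∈ s.τ) := by
  have hS := h.stp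
  obtain ⟨t, ht, t', hadj, rfl, k⟩ := he
  have h0 := ht.2
  rcases k with k | ⟨h1, h2, h3⟩
  · subst k
    refine ⟨t, Or.inr ht, _, Or.inl ⟨hS.hl, le_rfl⟩, hadj.symm, rfl, ?_, ?_, ?_⟩
    · rw [rL_not (h.YT hS.hl), rL_T ht]
      omega
    · rw [rL_not (h.YT hS.hl)]
    · rw [rL_not (h.YT hS.hl)]
      exact fun k => absurd k (lt_irrefl _)
  · have h4 := h1.2
    refine ⟨t, Or.inr ht, t', Or.inr h1, hadj.symm, rfl, ?_, ?_, fun _ => h2⟩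
    · rw [rL_T h1, rL_T ht]
      omega
    · rw [rL_T h1]
      omega

theorem sepL (h : PA H s o u) {t1 t1' t2 t2' : W}
    (h1 : t1 ∈ (s.dL o).Y) (h1' : t1' ∈ (s.dL o).Y) (h2 : t2 ∈ (s.dL o).Y)
    (h2' : t2' ∈ (s.dL o).Y) (a1 : H.Adj t1' t1) (l1 : (s.dL o).ρ t1' < (s.dL o).ρ t1)
    (l2 : (s.dL o).ρ t2' < (s.dL o).ρ t2) (l : (s.dL o).ρ t1' < (s.dL o).ρ t2')
    (ht : t2' ∈ s.τ) : Sep H (s.dL o) s(t1, t1') s(t2, t2') := by
  obtain ⟨x, hx, hxp, hadj⟩ := h.stp.tn _ ht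
  have h3 := gap h.pyL h1' h1 l1 a1 h2'
  refine ⟨x, ⟨hx, hxp⟩, t2', h2', hadj.symm, ?_, ?_⟩
  · intro y hy
    rcases Sym2.mem_iff.1 hy with rfl | rfl
    · exact Or.inr ⟨h1, by omega⟩
    · exact Or.inr ⟨h1', by omega⟩
  · intro y hy
    rcases Sym2.mem_iff.1 hy with rfl | rfl
    · exact Or.inr ⟨h2, by omega⟩
    · exact Or.inr ⟨h2', le_rfl⟩

theorem admL (h : PA H s o u) : Adm H (s.dL o) (s.SL H o) := by
  refine ⟨fun e he => ?_, fun e he e' he' hne => ?_⟩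
  · obtain ⟨t, ht, t', ht', hadj, rfl, -⟩ := h.slForm he
    exact Or.inr ⟨t, ht, t', ht', hadj.symm, rfl⟩
  · obtain ⟨t1, h1, t1', h1', a1, rfl, l1, m1, k1⟩ := h.slForm he
    obtain ⟨t2, h2, t2', h2', a2, rfl, l2, m2, k2⟩ := h.slForm he'
    have py := h.pyL
    rcases lt_trichotomy ((s.dL o).ρ t1') ((s.dL o).ρ t2') with l | l | l
    · exact Or.inl (h.sepL h1 h1' h2 h2' a1 l1 l2 l (k2 (by omega)))
    · exfalso
      have e1 : t1' = t2' := py.inj _ h1' _ h2' l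
      subst e1
      have g1 := gap py h1' h1 l1 a1 h2
      have g2 := gap py h1' h2 l2 a2 h1
      have e2 : t1 = t2 := py.inj _ h1 _ h2 (by omega)
      exact hne (by rw [e2])
    · exact Or.inr (h.sepL h2 h2' h1 h1' a2 l2 l1 l (k1 (by omega)))

end PA

end Pool.Agent.P.MP_08fd93_co.FD
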