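import Pool.Agent.P.MP_08fd93_co.FD.H6
import Pool.Agent.P.MP_08fd93_co.FU.Z1

/-! Flexible main step, part 7: the two forms for use. -/

set_option autoImplicit false

namespace Pool.Agent.P.MP_08fd93_co.FD

open OV OV.P65 OV.PkStp4aP

variable {W : Type} {H : SimpleGraph W} {s : SD W} {o : OD W}

/-- A conditional extension property of an output. -/
def ExtIf (H : SimpleGraph W) (d : DD W) (S : Set (Sym2 W)) (o : OD W)
    (Φ : (W → Col) → (W → W) → Prop) : Prop :=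
  ∀ (c : W → Col) (ω : W → W), (∀ x ∈ o.X, (c x).1 = false) → (∀ x ∈ o.Y, (c x).1 = true) →
    Paid (LE H d S o) c ω → Φ c ω → ∃ c', Rec H (d.upd o).I (Pay (LE H d S o) c ω) c c'

theorem extIf_of {d : DD W} {S : Set (Sym2 W)} (h : Out H d S o)
    (Φ : (W → Col) → (W → W) → Prop) : ExtIf H d S o Φ :=
  fun c ω h1 h2 h3 _ => h.ext c ω h1 h2 h3

/-- the case of a visible `v` -/
theorem pa_vis {S : Set (Sym2 W)} (hS : Stp H s) (hR : Reg H s) (hM : Disc H s.dM)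
    (hO : Shp H s.dM S o) (hj : s.qj ∈ o.Y) (hv : s.v ∈ o.Y) : PA H s o s.v := by
  refine ⟨stq_of hS, rgq_of hR, hM, hO.mono (Set.empty_subset _), hj, ⟨hv, ?_⟩, hS.vj,
    Or.inl rfl, fun _ y hy a => (hS.ty _ hS.pt.hb y hy a).2.1⟩
  rw [hO.ry _ (Or.inl hS.pt.hb) hv, rM_tau hS.pt.hb]
  omega

open Classical in
/-- The step data with the fan under `v` added to the left region. -/
noncomputable def mrg (s : SD W) : SD W :=
  ⟨s.d, s.p, s.p', s.z, s.v, s.qj, s.qj, s.τ, s.σ, fun x => if s.lab x = 3 then 0 else s.lab x⟩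

theorem mrg_rg (k : Fin 4) (h0 : k ≠ 0) (h3 : k ≠ 3) : (mrg s).Rg k = s.Rg k := by
  ext x
  simp only [SD.Rg, mrg, Set.mem_ofPred_eq]
  refine and_congr_right fun _ => and_congr_right fun _ => ?_
  split_ifs with h
  · exact ⟨fun e => absurd e.symm h0, fun e => absurd (e.symm.trans h) h3⟩
  · rfl

theorem mrg_rg0 {x : W} : x ∈ (mrg s).Rg 0 ↔ x ∈ s.Rg 0 ∨ x ∈ s.Rg 3 := by
  simp only [SD.Rg, mrg, Set.mem_ofPred_eq]
  split_ifs with h
  · simp [h]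
  · simp [h]

theorem mrg_rg3 {x : W} : x ∉ (mrg s).Rg 3 := by
  simp only [SD.Rg, mrg, Set.mem_ofPred_eq]
  rintro ⟨-, -, e⟩
  split_ifs at e with h
  · exact absurd e (by decide)
  · exact h e

theorem mrg_dM : (mrg s).dM = s.dM := by
  unfold SD.dM
  rw [mrg_rg 1 (by decide) (by decide)]
  rfl

theorem mrg_stq (hS : Stp H s) : Stq H (mrg s) :=
  ⟨hS.disc, hS.hp, hS.hp', hS.lt, hS.pp, hS.pt, hS.ti, hS.zp, hS.zp', hS.tn,
    fun t ht y hy a => ⟨(hS.ty t ht y hy a).1, (hS.ty t ht y hy a).2.2⟩, hS.hj, hS.hj, hS.vj, hS.vj⟩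

theorem mrg_rgq (hS : Stp H s) (hR : Reg H s) : Rgq H (mrg s) := by
  have l := lj (stq_of hS)
  have yl : s.YL ⊆ (mrg s).YL := fun y hy => ⟨hy.1, hy.2.trans l⟩
  refine ⟨?_, ?_, ?_, ?_, ?_, fun x hx => absurd hx mrg_rg3, fun h => absurd rfl h.1,
    fun x hx y hy a => yl (hR.r0 x hx y hy a), hR.r1⟩
  · rintro x ⟨y, hy, a⟩
    rcases mrg_rg0.1 hy with k | k
    · rcases hR.n0 ⟨y, k, a⟩ with q | (q | q) | q
      exacts [Or.inl (mrg_rg0.2 (Or.inl q)), Or.inr (Or.inl (Or.inl q)),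
        Or.inr (Or.inl (Or.inr (yl q))), Or.inr (Or.inr q)]
    · rcases hR.n3 ⟨y, k, a⟩ with q | q | rfl | rfl | rfl
      exacts [Or.inl (mrg_rg0.2 (Or.inr q)), Or.inr (Or.inl (Or.inr ⟨q.1, q.2.2.le⟩)),
        Or.inr (Or.inr hS.pt.hb), Or.inr (Or.inl (Or.inr ⟨hS.hl, l⟩)),
        Or.inr (Or.inl (Or.inr ⟨hS.hj, le_rfl⟩))]
  · rw [mrg_rg 1 (by decide) (by decide)]
    exact hR.n1
  · rw [mrg_rg 2 (by decide) (by decide)]
    exact hR.n2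
  · rintro x ⟨y, hy, -⟩
    exact absurd hy mrg_rg3
  · rw [mrg_rg 2 (by decide) (by decide)]
    exact hR.c2

/-- the case of a hidden `v` -/
theorem pa_hid {S : Set (Sym2 W)} (hS : Stp H s) (hR : Reg H s) (hM : Disc H s.dM)
    (hO : Shp H s.dM S o) (hj : s.qj ∈ o.Y) (hv : s.v ∉ o.Y) : ∃ u, PA H (mrg s) o u := by
  have py : Pth H o.Y o.ρ s.z s.d.b' := hO.disc.py
  have r1 : o.ρ s.qj = s.d.ρ s.qj := by
    rw [hO.ry _ (Or.inr (jYM (stq_of hS))) hj, rM_not (tauY (stq_of hS) hS.hj)]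
  have r2 : o.ρ s.z < s.d.ρ s.qj := by
    rw [hO.ry _ (Or.inl hS.pt.ha) py.ha, rM_tau hS.pt.ha]
    have := hS.pt.hi _ hS.pt.ha
    omega
  obtain ⟨u, hu, l, a⟩ := pred py hj py.ha (by omega)
  exact ⟨u, mrg_stq hS, mrg_rgq hS hR, by rw [mrg_dM]; exact hM,
    by rw [mrg_dM]; exact hO.mono (Set.empty_subset _), hj,
    ⟨hu, by change o.ρ u < s.d.ρ s.qj; omega⟩, a, Or.inr rfl, fun k => absurd k hv⟩

/-- the standard left disc keeps `ql` and `u` -/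
theorem pg_std {o1 o2 : OD W} {u : W} (hP : Pl H Set.univ) (A : PA H s o1 u)
    (O2 : Shp H (s.dL o1) (s.SL H o1) o2) : PG H s o1 o2 u := by
  have e : s(u, s.ql) ∈ s.SL H o1 := ⟨u, A.uT, s.ql, A.ul, rfl, Or.inl rfl⟩
  exact ⟨A, (A.dl hP).1, O2.mono sl0_sub,
    (O2.yy (Or.inl ⟨A.stp.hl, le_rfl⟩)).resolve_right (O2.st _ e _ (Sym2.mem_mk_right _ _)),
    (O2.yy (Or.inr A.uT)).resolve_right (O2.st _ e _ (Sym2.mem_mk_left _ _))⟩

/-- Form A: the right disc is solved with any strict set that keeps `qj` (and contains `v qj` if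
the fan is long). In the case of an ear `qj` pays the edge `ql qj` unless it is monochromatic. -/
theorem step_A (hP : Pl H Set.univ) (T : TA H) {o1 : OD W} {S S1 : Set (Sym2 W)} (hS : Stp H s)
    (hR : Reg H s) (hM : Disc H s.dM) (O1 : Out H s.dM S1 o1) (hj : s.qj ∈ o1.Y)
    (hL : s.Long H → s(s.v, s.qj) ∈ S1)
    (hSS : ∀ e ∈ S, e = s(s.p, s.p') ∨ (e ∈ S1 ∧ e ∈ PE H s.d.X ∪ PE H s.d.Y)) :
    ∃ o, Shp H s.d S o ∧
      ExtIf H s.d S o fun c ω => H.Adj s.ql s.qj → c s.ql = c s.qj ∨ ω s.qj = s.ql := by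
  obtain ⟨r2, r3⟩ := pk_Tri2 W H s hS hR (pk_Tri1 W H hP _ (T.tn _))
  have hSS' : ∀ S2 : Set (Sym2 W), ∀ e ∈ S, e = s(s.p, s.p') ∨
      ((e ∈ S1 ∨ e ∈ S2) ∧ e ∈ PE H s.d.X ∪ PE H s.d.Y) := fun S2 e he =>
    (hSS e he).imp_right fun k => ⟨Or.inl k.1, k.2⟩
  by_cases hv : s.v ∈ o1.Y
  · have A := pa_vis hS hR hM O1.shp hj hv
    obtain ⟨o2, O2⟩ := T _ _ (A.dl hP).1 A.admL
    have nb : s(s.v, s.ql) ∉ LE H (s.dL o1) (s.SL H o1) o2 :=
      fun k => k.2 ⟨s.v, A.uT, s.ql, A.ul, rfl, Or.inl rfl⟩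
    obtain ⟨h1, h2⟩ := (pg_std hP A O2.shp).flex O1 O2 sl0_sub (fun _ => nb)
      (fun k => ⟨fun q => q.2 (hL k), nb⟩) (hSS' _) r2 r3
    exact ⟨_, h1, fun c ω a b p k => h2 c ω a b p (fun q _ => k q) fun _ q => absurd q nb⟩
  · obtain ⟨u, A⟩ := pa_hid hS hR hM O1.shp hj hv
    obtain ⟨o2, O2⟩ := T _ _ (A.dl hP).1 A.admL
    have nb : s(u, (mrg s).ql) ∉ LE H ((mrg s).dL o1) ((mrg s).SL H o1) o2 :=
      fun k => k.2 ⟨u, A.uT, _, A.ul, rfl, Or.inl rfl⟩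
    obtain ⟨h1, h2⟩ := (pg_std hP A O2.shp).flex (S := S) (S1 := S1)
      (by rw [mrg_dM]; exact O1) O2 sl0_sub
      (fun _ => nb) (fun k => absurd rfl k.1) (hSS' _)
      (by rw [mrg_rg 2 (by decide) (by decide)]; exact r2) fun k => absurd rfl k.ne
    exact ⟨_, h1, fun c ω a b p _ => h2 c ω a b p (fun q => absurd rfl q.ne)
      fun q => absurd rfl q.ne⟩

/-- `v` stays on the second path of the left disc -/
theorem vis_left {o1 o2 : OD W} (A : PA H s o1 s.v) (O2 : Shp H (s.dL o1) (SL0 H s o1) o2) :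
    s.v ∈ o2.Y := by
  have py := A.py
  have ht := A.uT
  refine (O2.yy (Or.inr ht)).resolve_right ?_
  by_cases hz : s.v = s.z
  · exact hz ▸ yz O2 O2.disc.py.hb
  · have h1 := py.lo _ ht.1
    have h2 : o1.ρ s.z < o1.ρ s.v :=
      lt_of_le_of_ne h1 fun e => hz (py.inj _ ht.1 _ py.ha e.symm)
    obtain ⟨t0, h0, hlt, hadj⟩ := pred py ht.1 py.ha h2
    have h3 := ht.2
    exact O2.st _ ⟨t0, ⟨h0, by omega⟩, s.v, hadj, rfl, ht, A.stp.pt.hb, hlt⟩ _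
      (Sym2.mem_mk_right _ _)

/-- One edge left of `ql` can be added to the strict edges inside the new path. -/
theorem adm_left {o1 : OD W} (A : PA H s o1 s.v) {f : Sym2 W}
    (hf : f ∈ PE H s.YL) : Adm H (s.dL o1) (SL0 H s o1 ∪ {f}) := by
  have ad := A.admL
  have fY : f ∈ PE H (s.dL o1).Y := PE.mono (fun _ k => Or.inl k) hf
  obtain ⟨x, hx, hxp, hadj⟩ := A.stp.tn _ A.stp.pt.hb
  have rv : o1.ρ s.v < s.d.ρ s.qj := A.uT.2
  have sep : ∀ e ∈ SL0 H s o1, Sep H (s.dL o1) f e := by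
    rintro e ⟨t, ht, t', -, rfl, ht', -, -⟩
    refine ⟨x, ⟨hx, hxp⟩, s.v, Or.inr A.uT, hadj.symm, fun y hy => ?_, fun y hy => ?_⟩
    · have k := PE.ends hf hy
      refine Or.inr ⟨Or.inl k, ?_⟩
      rw [rL_not (A.YT k.1), rL_T A.uT]
      have := k.2
      omega
    · have k : y ∈ s.T1 o1 := by
        rcases Sym2.mem_iff.1 hy with rfl | rfl
        exacts [ht, ht']
      refine Or.inr ⟨Or.inr k, ?_⟩
      rw [rL_T k, rL_T A.uT]
      have := A.um k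
      omega
  refine ⟨?_, ?_⟩
  · rintro e (he | rfl)
    exacts [ad.1 (sl0_sub he), Or.inr fY]
  · rintro e (he | rfl) e' (he' | rfl) hne
    exacts [ad.2 e (sl0_sub he) e' (sl0_sub he') hne, Or.inr (sep e he), Or.inl (sep e' he'),
      absurd rfl hne]

/-- Form B: the right disc is strict at `v qj`; the left disc is solved with any strict set that
contains the edges inside the new path and keeps `ql`. In the case of an ear `ql` pays the edge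
`ql qj` unless it is monochromatic. -/
theorem step_B (hP : Pl H Set.univ) (T : TA H) {o1 o2 : OD W} {S S1 S2 : Set (Sym2 W)}
    (hS : Stp H s) (hR : Reg H s) (hM : Disc H s.dM) (O1 : Out H s.dM S1 o1)
    (h1 : s(s.v, s.qj) ∈ S1) (O2 : Out H (s.dL o1) S2 o2) (h2 : SL0 H s o1 ⊆ S2)
    (hl : s.ql ∈ o2.Y) (hL : s.Long H → s(s.v, s.ql) ∈ S2)
    (hSS : ∀ e ∈ S, e = s(s.p, s.p') ∨ ((e ∈ S1 ∨ e ∈ S2) ∧ e ∈ PE H s.d.X ∪ PE H s.d.Y)) :
    ∃ o, Shp H s.d S o ∧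
      ExtIf H s.d S o fun c ω => H.Adj s.ql s.qj → c s.ql = c s.qj ∨ ω s.ql = s.qj := by
  obtain ⟨r2, r3⟩ := pk_Tri2 W H s hS hR (pk_Tri1 W H hP _ (T.tn _))
  have hj : s.qj ∈ o1.Y := (O1.shp.yy (Or.inr (jYM (stq_of hS)))).resolve_right
    (O1.shp.st _ h1 _ (Sym2.mem_mk_right _ _))
  have hv : s.v ∈ o1.Y := (O1.shp.yy (Or.inl hS.pt.hb)).resolve_right
    (O1.shp.st _ h1 _ (Sym2.mem_mk_left _ _))
  have A := pa_vis hS hR hM O1.shp hj hv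
  have G : PG H s o1 o2 s.v := ⟨A, (A.dl hP).1, O2.shp.mono h2, hl, vis_left A (O2.shp.mono h2)⟩
  have na : s(s.v, s.qj) ∉ LE H s.dM S1 o1 := fun k => k.2 h1
  obtain ⟨k1, k2⟩ := G.flex O1 O2 h2 (fun k => absurd k na)
    (fun k => ⟨na, fun q => q.2 (hL k)⟩) hSS r2 r3
  exact ⟨_, k1, fun c ω a b p k => k2 c ω a b p (fun _ q => absurd q na) fun q _ => k q⟩

/-- Form B with one prescribed edge `f` of the second path that ends in `ql`. -/
theorem step_B1 (hP : Pl H Set.univ) (T : TA H) (hS : Stp H s) (hR : Reg H s)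
    (hM : Disc H s.dM) (hL : ¬ s.Long H) {y : W} (hy : y ∈ s.YL) (a : H.Adj y s.ql) :
    ∃ o, Shp H s.d {s(s.p, s.p'), s(y, s.ql)} o ∧ ExtIf H s.d {s(s.p, s.p'), s(y, s.ql)} o
      fun c ω => H.Adj s.ql s.qj → c s.ql = c s.qj ∨ ω s.ql = s.qj := by
  obtain ⟨-, ad, -⟩ := pk_Stp3 W H s hS hR
  obtain ⟨o1, O1⟩ := T _ _ hM ad
  have hj : s.qj ∈ o1.Y := (O1.shp.yy (Or.inr (jYM (stq_of hS)))).resolve_right
    (O1.shp.st _ rfl _ (Sym2.mem_mk_right _ _))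
  have hv : s.v ∈ o1.Y := (O1.shp.yy (Or.inl hS.pt.hb)).resolve_right
    (O1.shp.st _ rfl _ (Sym2.mem_mk_left _ _))
  have A := pa_vis hS hR hM O1.shp hj hv
  have hf : s(y, s.ql) ∈ PE H s.YL := mem_PE.2 ⟨hy, ⟨hS.hl, le_rfl⟩, a⟩
  obtain ⟨o2, O2⟩ := T _ _ (A.dl hP).1 (adm_left A hf)
  refine step_B hP T hS hR hM O1 rfl O2 Set.subset_union_left
    ((O2.shp.yy (Or.inl ⟨hS.hl, le_rfl⟩)).resolve_right
      (O2.shp.st _ (Or.inr rfl) _ (Sym2.mem_mk_right _ _))) (fun k => absurd k hL) ?_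
  rintro e (rfl | rfl)
  · exact Or.inl rfl
  · exact Or.inr ⟨Or.inr (Or.inr rfl), Or.inr (mem_PE.2 ⟨hy.1, hS.hl, a⟩)⟩

/-- Form A with one prescribed edge `f` of the second path that starts in `qj`. -/
theorem step_A1 (hP : Pl H Set.univ) (T : TA H) (hS : Stp H s) (hR : Reg H s)
    (hM : Disc H s.dM) (hL : ¬ s.Long H) {y : W} (hy : y ∈ s.YM) (a : H.Adj s.qj y) :
    ∃ o, Shp H s.d {s(s.p, s.p'), s(s.qj, y)} o ∧ ExtIf H s.d {s(s.p, s.p'), s(s.qj, y)} o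
      fun c ω => H.Adj s.ql s.qj → c s.ql = c s.qj ∨ ω s.qj = s.ql := by
  have hj := jYM (stq_of hS)
  obtain ⟨o1, O1⟩ := T s.dM {s(s.qj, y)} hM
    (Adm.single (Or.inr (mem_PE.2 ⟨Or.inr hj, Or.inr hy, a⟩)))
  refine step_A hP T hS hR hM O1 ((O1.shp.yy (Or.inr hj)).resolve_right
    (O1.shp.st _ rfl _ (Sym2.mem_mk_left _ _))) (fun k => absurd k hL) ?_
  rintro e (rfl | rfl)
  · exact Or.inl rfl
  · exact Or.inr ⟨rfl, Or.inr (mem_PE.2 ⟨hS.hj, hy.1, a⟩)⟩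

/-- The standard step hides the vertices strictly inside a long fan. -/
theorem step_L (hP : Pl H Set.univ) (T : TA H) (hS : Stp H s) (hR : Reg H s)
    (hM : Disc H s.dM) (hL : s.Long H) : ∃ o, Out H s.d {s(s.p, s.p')} o ∧ s.YN ⊆ o.Z := by
  obtain ⟨-, ad, -⟩ := pk_Stp3 W H s hS hR
  obtain ⟨o1, O1⟩ := T _ _ hM ad
  have A := FU.pa_of_strict hS hR hM O1.shp rfl
  obtain ⟨o2, O2⟩ := T _ _ (A.dl hP).1 A.admL
  exact ⟨_, FU.step_gen hP T A O1 O2 (fun _ => rfl) subset_rfl fun e he => Or.inl he,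
    fun x hx => Or.inr (Or.inr (Or.inr ⟨hL, Or.inr hx⟩))⟩

end Pool.Agent.P.MP_08fd93_co.FD
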